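import Pool.Agent.Helper18.ED.St

/-! # Module MN: existence of the logarithmic mean -/

namespace Pool.Agent.Helper18.ED

open Finset Filter Topology

/-- logarithmic partial sums -/
noncomputable def mnS (f : ℕ → ℝ) (N : ℕ) : ℝ := ∑ n ∈ Icc 1 N, f n / n

/-- logarithmic averages -/
noncomputable def mnA (f : ℕ → ℝ) (N : ℕ) : ℝ := mnS f N / Real.log N

/-- the ultrafilter used for the limit -/
noncomputable def mnU : Ultrafilter ℕ := hyperfilter ℕ

/-- the mean -/
noncomputable def mnMu (f : ℕ → ℝ) : ℝ := limUnder (mnU : Filter ℕ) (mnA f)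

theorem mnU_le : (mnU : Filter ℕ) ≤ atTop := by
  rw [← Nat.cofinite_eq_atTop]; exact hyperfilter_le_cofinite

theorem mn_harm (N : ℕ) : ∑ n ∈ Icc 1 N, (1 : ℝ) / n = (harmonic N : ℝ) := by
  rw [harmonic_eq_sum_Icc]
  push_cast
  exact sum_congr rfl fun n _ => by rw [one_div]

theorem mn_S_bound {f : ℕ → ℝ} {C : ℝ} (hC : ∀ n, |f n| ≤ C) (N : ℕ) :
    |mnS f N| ≤ C * (harmonic N : ℝ) := by
  rw [← mn_harm, mul_sum]
  refine (abs_sum_le_sum_abs _ _).trans (sum_le_sum fun n _ => ?_)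
  rw [abs_div, Nat.abs_cast, mul_one_div]
  gcongr
  exact hC n

theorem mn_tendsto_of_bdd {a : ℕ → ℝ} {K : ℝ} (h : ∀ᶠ N in atTop, |a N| ≤ K) :
    Tendsto a (mnU : Filter ℕ) (𝓝 (limUnder (mnU : Filter ℕ) a)) := by
  apply tendsto_nhds_limUnder
  have h1 : ∀ᶠ N in (mnU : Filter ℕ), |a N| ≤ K := mnU_le h
  have h2 : (↑(mnU.map a) : Filter ℝ) ≤ 𝓟 (Set.Icc (-K) K) := by
    rw [le_principal_iff, Ultrafilter.coe_map, Filter.mem_map]
    filter_upwards [h1] with N hN
    exact abs_le.mp hN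
  obtain ⟨x, _, hx⟩ := isCompact_iff_ultrafilter_le_nhds.mp (isCompact_Icc (a := -K) (b := K))
    (mnU.map a) h2
  exact ⟨x, hx⟩

theorem mn_ev {f : ℕ → ℝ} (hf : Bdd f) : ∃ K, ∀ᶠ N in atTop, |mnA f N| ≤ K := by
  obtain ⟨C, hC⟩ := hf
  have hC0 : 0 ≤ C := (abs_nonneg _).trans (hC 0)
  refine ⟨2 * C, ?_⟩
  filter_upwards [eventually_ge_atTop 3] with N hN
  have hl : 1 ≤ Real.log N := by
    rw [Real.le_log_iff_exp_le (by positivity)]
    have : (3 : ℝ) ≤ N := by exact_mod_cast hN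
    linarith [Real.exp_one_lt_d9]
  have h1 := mn_S_bound hC N
  have h2 : (harmonic N : ℝ) ≤ 1 + Real.log N := harmonic_le_one_add_log N
  unfold mnA
  rw [abs_div, abs_of_pos (by linarith : (0 : ℝ) < Real.log N), div_le_iff₀ (by linarith)]
  nlinarith

theorem mn_tendsto {f : ℕ → ℝ} (hf : Bdd f) :
    Tendsto (mnA f) (mnU : Filter ℕ) (𝓝 (mnMu f)) := by
  obtain ⟨K, hK⟩ := mn_ev hf
  exact mn_tendsto_of_bdd hK

theorem mn_unique {f : ℕ → ℝ} (hf : Bdd f) {x : ℝ}
    (h : Tendsto (mnA f) (mnU : Filter ℕ) (𝓝 x)) : mnMu f = x :=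
  tendsto_nhds_unique (mn_tendsto hf) h

theorem mn_inv_log : Tendsto (fun N : ℕ => (Real.log N)⁻¹) (mnU : Filter ℕ) (𝓝 0) := by
  refine Tendsto.mono_left ?_ mnU_le
  exact tendsto_inv_atTop_zero.comp (Real.tendsto_log_atTop.comp tendsto_natCast_atTop_atTop)

/-- bounded differences of the partial sums do not matter -/
theorem mn_close {f g : ℕ → ℝ} (hf : Bdd f) (hg : Bdd g) (c K : ℝ)
    (h : ∀ N, |mnS f N - c * mnS g N| ≤ K) : mnMu f = c * mnMu g := by
  apply mn_unique hf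
  have h1 : Tendsto (fun N => c * mnA g N) (mnU : Filter ℕ) (𝓝 (c * mnMu g)) :=
    (mn_tendsto hg).const_mul c
  have h2 : Tendsto (fun N => mnA f N - c * mnA g N) (mnU : Filter ℕ) (𝓝 0) := by
    have h3 : Tendsto (fun N : ℕ => K * |(Real.log N)⁻¹|) (mnU : Filter ℕ) (𝓝 0) := by
      have := (mn_inv_log.abs).const_mul K
      simpa using this
    refine squeeze_zero_norm (fun N => ?_) h3
    have : mnA f N - c * mnA g N = (mnS f N - c * mnS g N) * (Real.log N)⁻¹ := by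
      unfold mnA; ring
    rw [this, Real.norm_eq_abs, abs_mul]
    exact mul_le_mul_of_nonneg_right (h N) (abs_nonneg _)
  have h4 := h2.add h1
  simpa using h4

theorem mn_bdd_add {f g : ℕ → ℝ} (hf : Bdd f) (hg : Bdd g) : Bdd (fun n => f n + g n) := by
  obtain ⟨C, hC⟩ := hf
  obtain ⟨D, hD⟩ := hg
  exact ⟨C + D, fun n => (abs_add_le _ _).trans (add_le_add (hC n) (hD n))⟩

theorem mn_bdd_smul {f : ℕ → ℝ} (c : ℝ) (hf : Bdd f) : Bdd (fun n => c * f n) := by
  obtain ⟨C, hC⟩ := hf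
  exact ⟨|c| * C, fun n => by
    rw [abs_mul]; exact mul_le_mul_of_nonneg_left (hC n) (abs_nonneg _)⟩

theorem mn_bdd_shift {f : ℕ → ℝ} (hf : Bdd f) : Bdd (fun n => f (n + 1)) := by
  obtain ⟨C, hC⟩ := hf
  exact ⟨C, fun n => hC _⟩

theorem mn_bdd_dil {f : ℕ → ℝ} (d : ℕ) (hf : Bdd f) :
    Bdd (fun n => if d ∣ n then f (n / d) else 0) := by
  obtain ⟨C, hC⟩ := hf
  have hC0 : 0 ≤ C := (abs_nonneg _).trans (hC 0)
  refine ⟨C, fun n => ?_⟩
  by_cases h : d ∣ n
  · simpa [h] using hC _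
  · simpa [h] using hC0

theorem mn_bdd_one : Bdd (fun _ => (1 : ℝ)) := ⟨1, fun n => by simp⟩

theorem mn_add {f g : ℕ → ℝ} (hf : Bdd f) (hg : Bdd g) :
    mnMu (fun n => f n + g n) = mnMu f + mnMu g := by
  apply mn_unique (mn_bdd_add hf hg)
  have h1 := (mn_tendsto hf).add (mn_tendsto hg)
  refine h1.congr fun N => ?_
  unfold mnA mnS
  rw [← add_div, ← sum_add_distrib]
  congr 1
  exact sum_congr rfl fun n _ => by ring

theorem mn_smul {f : ℕ → ℝ} (c : ℝ) (hf : Bdd f) :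
    mnMu (fun n => c * f n) = c * mnMu f := by
  apply mn_unique (mn_bdd_smul c hf)
  have h1 := (mn_tendsto hf).const_mul c
  refine h1.congr fun N => ?_
  unfold mnA mnS
  rw [← mul_div_assoc, mul_sum]
  congr 1
  exact sum_congr rfl fun n _ => by ring

theorem mn_one : mnMu (fun _ => 1) = 1 := by
  apply mn_unique mn_bdd_one
  have h1 : Tendsto (fun N : ℕ => mnA (fun _ => 1) N - 1) (mnU : Filter ℕ) (𝓝 0) := by
    refine squeeze_zero_norm' ?_ mn_inv_log
    have : ∀ᶠ N : ℕ in atTop, ‖mnA (fun _ => 1) N - 1‖ ≤ (Real.log N)⁻¹ := by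
      filter_upwards [eventually_ge_atTop 3] with N hN
      have hl : 1 ≤ Real.log N := by
        rw [Real.le_log_iff_exp_le (by positivity)]
        have : (3 : ℝ) ≤ N := by exact_mod_cast hN
        linarith [Real.exp_one_lt_d9]
      have e : mnS (fun _ => 1) N = (harmonic N : ℝ) := mn_harm N
      have h2 : (harmonic N : ℝ) ≤ 1 + Real.log N := harmonic_le_one_add_log N
      have h3 : Real.log ((N : ℝ) + 1) ≤ (harmonic N : ℝ) := by
        have := log_add_one_le_harmonic N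
        exact_mod_cast this
      have h4 : Real.log N ≤ Real.log ((N : ℝ) + 1) :=
        Real.log_le_log (by positivity) (by linarith)
      have e2 : mnA (fun _ => 1) N - 1 = ((harmonic N : ℝ) - Real.log N) * (Real.log N)⁻¹ := by
        unfold mnA
        rw [e]
        field_simp
      rw [e2, Real.norm_eq_abs, abs_mul, abs_of_nonneg (by linarith : (0 : ℝ) ≤ _ - _),
        abs_of_pos (by positivity)]
      have : (harmonic N : ℝ) - Real.log N ≤ 1 := by linarith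
      calc ((harmonic N : ℝ) - Real.log N) * (Real.log N)⁻¹ ≤ 1 * (Real.log N)⁻¹ := by
            gcongr
        _ = _ := one_mul _
    exact mnU_le this
  have h2 := h1.add_const 1
  simpa using h2

theorem mn_nonneg {f : ℕ → ℝ} (hf : Bdd f) (h0 : ∀ n, 0 ≤ f n) : 0 ≤ mnMu f := by
  refine ge_of_tendsto (mn_tendsto hf) (Eventually.of_forall fun N => ?_)
  unfold mnA mnS
  refine div_nonneg (sum_nonneg fun n _ => div_nonneg (h0 n) (Nat.cast_nonneg _)) ?_
  rcases Nat.eq_zero_or_pos N with h | h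
  · simp [h]
  · exact Real.log_nonneg (by exact_mod_cast h)

theorem mn_S_succ (f : ℕ → ℝ) (N : ℕ) : mnS f (N + 1) = mnS f N + f (N + 1) / ((N : ℝ) + 1) := by
  unfold mnS
  rw [sum_Icc_succ_top (by omega)]
  push_cast
  rfl

theorem mn_shift_aux {f : ℕ → ℝ} {C : ℝ} (hC : ∀ n, |f n| ≤ C) (N : ℕ) :
    |mnS (fun n => f (n + 1)) N - mnS f N - f (N + 1) / ((N : ℝ) + 1) + f 1| ≤
      C * (1 - 1 / ((N : ℝ) + 1)) := by
  induction N with
  | zero => simp [mnS]
  | succ N ih =>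
    rw [mn_S_succ, mn_S_succ]
    push_cast
    have hC0 : 0 ≤ C := (abs_nonneg _).trans (hC 0)
    have e : mnS (fun n => f (n + 1)) N + f (N + 1 + 1) / ((N : ℝ) + 1) -
        (mnS f N + f (N + 1) / ((N : ℝ) + 1)) - f (N + 1 + 1) / ((N : ℝ) + 1 + 1) + f 1 =
        (mnS (fun n => f (n + 1)) N - mnS f N - f (N + 1) / ((N : ℝ) + 1) + f 1) +
        f (N + 1 + 1) * (1 / ((N : ℝ) + 1) - 1 / ((N : ℝ) + 1 + 1)) := by ring
    rw [e]
    have hpos : 0 ≤ 1 / ((N : ℝ) + 1) - 1 / ((N : ℝ) + 1 + 1) := by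
      rw [sub_nonneg]
      exact one_div_le_one_div_of_le (by positivity) (by linarith)
    refine (abs_add_le _ _).trans ?_
    rw [abs_mul, abs_of_nonneg hpos]
    have := mul_le_mul_of_nonneg_right (hC (N + 1 + 1)) hpos
    linarith

theorem mn_shift {f : ℕ → ℝ} (hf : Bdd f) : mnMu (fun n => f (n + 1)) = mnMu f := by
  obtain ⟨C, hC⟩ := id hf
  have hC0 : 0 ≤ C := (abs_nonneg _).trans (hC 0)
  have := mn_close (mn_bdd_shift hf) hf 1 (3 * C) (fun N => ?_)
  · simpa using this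
  have h1 := mn_shift_aux hC N
  have h2 : |f (N + 1) / ((N : ℝ) + 1)| ≤ C := by
    rw [abs_div, abs_of_pos (by positivity : (0 : ℝ) < (N : ℝ) + 1), div_le_iff₀ (by positivity)]
    have := hC (N + 1)
    have hN : (0 : ℝ) ≤ N := Nat.cast_nonneg _
    nlinarith
  have h3 := hC 1
  have h4 : C * (1 - 1 / ((N : ℝ) + 1)) ≤ C := by
    have : 0 ≤ 1 / ((N : ℝ) + 1) := by positivity
    nlinarith
  rw [abs_le] at h1 h2 h3 ⊢
  constructor <;> linarith [h1.1, h1.2, h2.1, h2.2, h3.1, h3.2]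

theorem mn_dil_sum (f : ℕ → ℝ) (d N : ℕ) (hd : 1 ≤ d) :
    mnS (fun n => if d ∣ n then f (n / d) else 0) N = (1 / (d : ℝ)) * mnS f (N / d) := by
  unfold mnS
  have h1 : ∑ n ∈ Icc 1 N, (if d ∣ n then f (n / d) else 0) / (n : ℝ) =
      ∑ n ∈ (Icc 1 N).filter (fun n => d ∣ n), f (n / d) / (n : ℝ) := by
    rw [sum_filter]
    refine sum_congr rfl fun n _ => ?_
    split_ifs <;> simp
  rw [h1, mul_sum]
  symm
  refine sum_nbij' (fun m => d * m) (fun n => n / d) ?_ ?_ ?_ ?_ ?_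
  · intro m hm
    rw [mem_Icc] at hm
    rw [mem_filter, mem_Icc]
    refine ⟨⟨?_, ?_⟩, dvd_mul_right _ _⟩
    · exact Nat.one_le_iff_ne_zero.mpr (Nat.mul_ne_zero (by omega) (by omega))
    · calc d * m ≤ d * (N / d) := Nat.mul_le_mul_left _ hm.2
        _ ≤ N := Nat.mul_div_le _ _
  · intro n hn
    rw [mem_filter, mem_Icc] at hn
    obtain ⟨⟨h1, h2⟩, k, rfl⟩ := hn
    rw [mem_Icc, Nat.mul_div_cancel_left _ (by omega)]
    refine ⟨Nat.one_le_iff_ne_zero.mpr (by rintro rfl; simp at h1), ?_⟩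
    rw [Nat.le_div_iff_mul_le (by omega), mul_comm]
    exact h2
  · intro m _
    exact Nat.mul_div_cancel_left _ (by omega)
  · intro n hn
    rw [mem_filter] at hn
    exact Nat.mul_div_cancel' hn.2
  · intro m _
    rw [Nat.mul_div_cancel_left _ (by omega)]
    push_cast
    have : (d : ℝ) ≠ 0 := by positivity
    field_simp

theorem mn_tail {f : ℕ → ℝ} {C : ℝ} (hC : ∀ n, |f n| ≤ C) (d N : ℕ) (hd : 1 ≤ d) :
    |mnS f (N / d) - mnS f N| ≤ C * (1 + Real.log d) := by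
  have hC0 : 0 ≤ C := (abs_nonneg _).trans (hC 0)
  have hld : 0 ≤ Real.log d := Real.log_nonneg (by exact_mod_cast hd)
  have hle : N / d ≤ N := Nat.div_le_self _ _
  have hsplit : ∀ g : ℕ → ℝ, mnS g N = mnS g (N / d) + ∑ n ∈ Ioc (N / d) N, g n / n := by
    intro g
    unfold mnS
    have e : ∀ k : ℕ, Icc 1 k = Ioc 0 k := fun k => by ext x; simp [mem_Icc, mem_Ioc]; omega
    rw [e, e]
    exact (sum_Ioc_consecutive (fun n => g n / (n : ℝ)) (Nat.zero_le _) hle).symm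
  have h1 : |mnS f (N / d) - mnS f N| ≤ C * (∑ n ∈ Ioc (N / d) N, (1 : ℝ) / n) := by
    rw [hsplit f, mul_sum, sub_add_cancel_left, abs_neg]
    refine (abs_sum_le_sum_abs _ _).trans (sum_le_sum fun n _ => ?_)
    rw [abs_div, Nat.abs_cast, mul_one_div]
    gcongr
    exact hC n
  have h2 : (∑ n ∈ Ioc (N / d) N, (1 : ℝ) / n) ≤ 1 + Real.log d := by
    have h3 := hsplit (fun _ => 1)
    have h4 : mnS (fun _ => 1) N = (harmonic N : ℝ) := mn_harm N
    have h5 : mnS (fun _ => 1) (N / d) = (harmonic (N / d) : ℝ) := mn_harm _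
    rcases Nat.eq_zero_or_pos N with h0 | h0
    · subst h0
      simp
      linarith
    have h6 : (harmonic N : ℝ) ≤ 1 + Real.log N := harmonic_le_one_add_log N
    have h7 : Real.log ((((N / d : ℕ) : ℝ)) + 1) ≤ (harmonic (N / d) : ℝ) := by
      have := log_add_one_le_harmonic (N / d)
      exact_mod_cast this
    have h8 : Real.log N - Real.log d ≤ Real.log ((((N / d : ℕ) : ℝ)) + 1) := by
      rw [← Real.log_div (by positivity) (by positivity)]
      refine Real.log_le_log (by positivity) ?_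
      rw [div_le_iff₀ (by positivity)]
      have : N < (N / d + 1) * d := by
        have := Nat.lt_mul_div_succ N (by omega : 0 < d)
        rw [mul_comm]
        exact this
      have h9 : (N : ℝ) < (((N / d : ℕ) : ℝ) + 1) * d := by exact_mod_cast this
      exact h9.le
    linarith
  exact h1.trans (mul_le_mul_of_nonneg_left h2 hC0)

theorem mn_dil {f : ℕ → ℝ} (d : ℕ) (hd : 1 ≤ d) (hf : Bdd f) :
    mnMu (fun n => if d ∣ n then f (n / d) else 0) = mnMu f / d := by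
  obtain ⟨C, hC⟩ := id hf
  have h := mn_close (mn_bdd_dil d hf) hf (1 / (d : ℝ)) ((1 / (d : ℝ)) * (C * (1 + Real.log d)))
    (fun N => ?_)
  · rw [h]; ring
  rw [mn_dil_sum f d N hd, ← mul_sub, abs_mul, abs_of_nonneg (by positivity : (0 : ℝ) ≤ 1 / d)]
  exact mul_le_mul_of_nonneg_left (mn_tail hC d N hd) (by positivity)

theorem pf_Mean : StMean := by
  refine ⟨mnMu, ⟨fun f g hf hg => mn_add hf hg, fun c f hf => mn_smul c hf, mn_one,
    fun f hf h0 => mn_nonneg hf h0, fun f hf => mn_shift hf,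
    fun d hd f hf => mn_dil d hd hf⟩, ?_⟩
  intro f hf c hc
  obtain ⟨N₀, hN₀⟩ := hc
  refine le_of_tendsto (mn_tendsto hf) (mnU_le ?_)
  filter_upwards [eventually_ge_atTop N₀, eventually_ge_atTop 2] with N h1 h2
  have hl : 0 < Real.log N := Real.log_pos (by exact_mod_cast h2)
  unfold mnA
  rw [div_le_iff₀ hl]
  exact hN₀ N h1

theorem mn_bdd_ind (A : Set ℕ) [DecidablePred (· ∈ A)] :
    Bdd (fun n => if n ∈ A then (1 : ℝ) else 0) :=
  ⟨1, fun n => by by_cases h : n ∈ A <;> simp [h]⟩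

theorem pf_Prob : StProb := by
  classical
  intro μ hμ
  refine ⟨fun A => ?_, ?_, fun A B hAB => ?_, fun A => ?_, fun d hd A => ?_⟩
  · unfold prob
    exact hμ.nonneg _ (mn_bdd_ind A) fun n => by split_ifs <;> simp
  · unfold prob
    simp only [Set.mem_univ, if_true]
    exact hμ.one
  · unfold prob
    rw [← hμ.add _ _ (mn_bdd_ind A) (mn_bdd_ind B)]
    congr 1
    funext n
    have hd : ¬ (n ∈ A ∧ n ∈ B) := fun h => Set.disjoint_left.mp hAB h.1 h.2
    by_cases ha : n ∈ A <;> by_cases hb : n ∈ B <;> simp [ha, hb] at hd ⊢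
  · unfold prob
    exact hμ.shift _ (mn_bdd_ind A)
  · unfold prob
    rw [← hμ.dil d hd _ (mn_bdd_ind A)]
    congr 1
    funext n
    by_cases h1 : d ∣ n <;> by_cases h2 : n / d ∈ A <;> simp [h1, h2]

end Pool.Agent.Helper18.ED
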