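import Pool.Agent.Helper18.ED.St

/-! Good differences for bounded correlation sums. -/

namespace Pool.Agent.Helper18.ED

open Finset

theorem lam_coe (n : ℕ) : ((lam n : ℤˣ) : ℤ) = (-1 : ℤ) ^ (ArithmeticFunction.cardFactors n) := by
  unfold lam
  push_cast
  rfl

theorem lam_CM : CM lam := by
  intro a b ha hb
  unfold lam
  rw [ArithmeticFunction.cardFactors_mul (by omega) (by omega), pow_add]

theorem lam_sq (n : ℕ) : ((lam n : ℤˣ) : ℤ) * ((lam n : ℤˣ) : ℤ) = 1 := by
  rw [← Units.val_mul, Int.units_mul_self]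
  rfl

/-- extension of a window by zero -/
def gdx {H : ℕ} (x : Fin H → ℤˣ) (i : ℕ) : ℤ := if h : i < H then (x ⟨i, h⟩ : ℤ) else 0

theorem gd_diff (h : ℕ) (C : ℤ) (hS : ∀ N : ℕ, |∑ n ∈ Icc 1 N,
    (-1 : ℤ) ^ (ArithmeticFunction.cardFactors n) *
    (-1 : ℤ) ^ (ArithmeticFunction.cardFactors (n + h))| ≤ C) (n a b : ℕ) (hn : 1 ≤ n)
    (hab : a ≤ b) :
    |∑ j ∈ Ico a b, ((lam (n + j) : ℤˣ) : ℤ) * ((lam (n + j + h) : ℤˣ) : ℤ)| ≤ 2 * C := by
  have h1 : ∑ j ∈ Ico a b, ((lam (n + j) : ℤˣ) : ℤ) * ((lam (n + j + h) : ℤˣ) : ℤ) =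
      ∑ k ∈ Ico (n + a) (n + b), (-1 : ℤ) ^ (ArithmeticFunction.cardFactors k) *
        (-1 : ℤ) ^ (ArithmeticFunction.cardFactors (k + h)) := by
    rw [add_comm n a, add_comm n b, ← Finset.sum_Ico_add (fun k =>
      (-1 : ℤ) ^ (ArithmeticFunction.cardFactors k) *
        (-1 : ℤ) ^ (ArithmeticFunction.cardFactors (k + h))) a b n]
    refine Finset.sum_congr rfl fun j _ => ?_
    rw [lam_coe, lam_coe]
  have h2 : ∀ c : ℕ, 1 ≤ c → Icc 1 (c - 1) = Ico 1 c := by
    intro c hc
    ext x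
    simp only [mem_Icc, mem_Ico]
    omega
  have h3 := hS (n + b - 1)
  have h4 := hS (n + a - 1)
  rw [h2 _ (by omega)] at h3 h4
  have h5 := Finset.sum_Ico_consecutive (fun k => (-1 : ℤ) ^ (ArithmeticFunction.cardFactors k) *
        (-1 : ℤ) ^ (ArithmeticFunction.cardFactors (k + h))) (show 1 ≤ n + a by omega)
        (show n + a ≤ n + b by omega)
  rw [h1]
  rw [abs_le] at *
  constructor <;> linarith [h3.1, h3.2, h4.1, h4.2]

open Classical in
theorem pf_Good (hM : StMain) (hPart : StPart) (hPos : StPos) (hE : StEmpty) : StGood := by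
  intro h C hS P hP J A ε hε
  obtain ⟨w₀, hw₀⟩ := hM P hP lam lam_CM A (J + h + 1) 1 (by omega) le_rfl ε hε
  refine ⟨w₀, fun w hw => (Finset.sum_le_sum fun d hd => ?_).trans (hw₀ w hw)⟩
  have hd1 : 1 ≤ d := by
    have := (Finset.mem_filter.1 hd).1
    exact (mem_Icc.1 this).1
  refine mul_le_mul_of_nonneg_left ?_ (by positivity)
  -- bad windows
  let B : (Fin (J + h + 1) → ℤˣ) → Prop := fun x => ∃ a b, a ≤ b ∧ b ≤ J ∧
    2 * C < |∑ j ∈ Ico a b, gdx x j * gdx x (j + h)|
  set D : Set ℕ := {n | ∃ a b, a ≤ b ∧ b ≤ J ∧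
    2 * C < |∑ j ∈ Ico a b, (-1 : ℤ) ^ (ArithmeticFunction.cardFactors (n + j * d)) *
      (-1 : ℤ) ^ (ArithmeticFunction.cardFactors (n + (j + h) * d))|} with hD
  have hDB : ∀ n, n ∈ D ↔ B (W lam d (J + h + 1) n) := by
    intro n
    simp only [hD, Set.mem_ofPred_eq, B]
    refine exists_congr fun a => exists_congr fun b => and_congr_right fun hab =>
      and_congr_right fun hbJ => ?_
    have : ∑ j ∈ Ico a b, (-1 : ℤ) ^ (ArithmeticFunction.cardFactors (n + j * d)) *
      (-1 : ℤ) ^ (ArithmeticFunction.cardFactors (n + (j + h) * d)) =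
      ∑ j ∈ Ico a b, gdx (W lam d (J + h + 1) n) j * gdx (W lam d (J + h + 1) n) (j + h) := by
      refine Finset.sum_congr rfl fun j hj => ?_
      rw [mem_Ico] at hj
      have h1 : j < J + h + 1 := by omega
      have h2 : j + h < J + h + 1 := by omega
      simp only [gdx, h1, h2, dif_pos, W, lam_coe]
      rw [mul_comm d j, mul_comm d (j + h)]
    rw [this]
  have hpart := hPart P hP (fun n => W lam d (J + h + 1) n) Finset.univ (fun _ => mem_univ _) D
  rw [← hpart]
  unfold TV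
  refine Finset.sum_le_sum fun x _ => ?_
  rw [Finset.sum_range_one]
  by_cases hx : B x
  · have h1 : {n | n ∈ D ∧ W lam d (J + h + 1) n = x} = {n | W lam d (J + h + 1) n = x ∧
        n % 1 = 0} := by
      ext n
      simp only [Set.mem_ofPred_eq, Nat.mod_one, and_true]
      constructor
      · exact fun h => h.2
      · intro h
        refine ⟨?_, h⟩
        rw [hDB, h]
        exact hx
    have h2 : P {n | (fun j => lam d * W lam 1 (J + h + 1) n j) = x ∧ (d * n) % 1 = 0} = 0 := by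
      rw [← hE P hP]
      refine hPos P hP _ _ fun n hn => ?_
      simp only [Set.mem_ofPred_eq, Nat.mod_one, and_true, Set.mem_empty_iff_false, iff_false]
      intro hxn
      obtain ⟨a, b, hab, hbJ, hlt⟩ := hx
      refine absurd hlt (not_lt.2 ?_)
      have h3 := gd_diff h C hS n a b hn hab
      have h4 : ∑ j ∈ Ico a b, gdx x j * gdx x (j + h) =
          ∑ j ∈ Ico a b, ((lam (n + j) : ℤˣ) : ℤ) * ((lam (n + j + h) : ℤˣ) : ℤ) := by
        refine Finset.sum_congr rfl fun j hj => ?_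
        rw [mem_Ico] at hj
        have h1 : j < J + h + 1 := by omega
        have h2 : j + h < J + h + 1 := by omega
        rw [← hxn]
        simp only [gdx, h1, h2, dif_pos, W, one_mul]
        push_cast
        have h5 := lam_sq d
        rw [← add_assoc n j h]
        linear_combination ((lam (n + j) : ℤˣ) : ℤ) * ((lam (n + j + h) : ℤˣ) : ℤ) * h5
      rw [h4]
      exact h3
    rw [h1, h2, sub_zero]
    exact le_abs_self _
  · have h1 : {n | n ∈ D ∧ W lam d (J + h + 1) n = x} = ∅ := by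
      ext n
      simp only [Set.mem_ofPred_eq, Set.mem_empty_iff_false, iff_false]
      rintro ⟨h1, h2⟩
      rw [hDB, h2] at h1
      exact hx h1
    rw [h1, hE P hP]
    exact abs_nonneg _

end Pool.Agent.Helper18.ED
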