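import Mathlib

/-!
# Entropy decrement for completely multiplicative `±1` sequences: definitions

Throughout, `P` is a shift invariant finitely additive probability on `ℕ` with the dilation
property of the logarithmic density.
-/

namespace Pool.Agent.Helper18.ED

/-- shift invariant finitely additive probability on `ℕ` with the dilation property of the
logarithmic density -/
structure LogProb (P : Set ℕ → ℝ) : Prop where
  nonneg : ∀ A, 0 ≤ P A
  univ : P Set.univ = 1
  union : ∀ A B, Disjoint A B → P (A ∪ B) = P A + P B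
  shift : ∀ A : Set ℕ, P {n | n + 1 ∈ A} = P A
  dil : ∀ d, 1 ≤ d → ∀ A : Set ℕ, P {n | d ∣ n ∧ n / d ∈ A} = P A / d

/-- completely multiplicative on the positive integers -/
def CM (f : ℕ → ℤˣ) : Prop := ∀ a b, 1 ≤ a → 1 ≤ b → f (a * b) = f a * f b

/-- finite range -/
def FR {S : Type} (X : ℕ → S) : Prop := (Set.range X).Finite

/-- Shannon entropy (natural logarithm) of a function with finite range -/
noncomputable def ent (P : Set ℕ → ℝ) {S : Type} (X : ℕ → S) : ℝ :=
  ∑ᶠ s, Real.negMulLog (P {n | X n = s})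

/-- the window of length `H` and step `m` starting at `n` -/
def W (f : ℕ → ℤˣ) (m H n : ℕ) : Fin H → ℤˣ := fun j => f (n + m * j)

/-- conditional entropy of the window of length `H` and step `m` given `n` modulo `M` -/
noncomputable def cE (P : Set ℕ → ℝ) (f : ℕ → ℤˣ) (m H M : ℕ) : ℝ :=
  ent P (fun n => (W f m H n, n % M)) - ent P (fun n => n % M)

/-- `ℓ¹`-distance between the law of `(window of step m, n mod M)` and the law of
`(f m * window of step 1, m * n mod M)` -/
noncomputable def TV (P : Set ℕ → ℝ) (f : ℕ → ℤˣ) (m H M : ℕ) : ℝ :=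
  ∑ x : Fin H → ℤˣ, ∑ r ∈ Finset.range M,
    |P {n | W f m H n = x ∧ n % M = r} -
      P {n | (fun j => f m * W f 1 H n j) = x ∧ (m * n) % M = r}|

/-- the mutual information between `(window of length H p, n mod M)` and `n mod p` -/
noncomputable def inf (P : Set ℕ → ℝ) (f : ℕ → ℤˣ) (m H M p : ℕ) : ℝ :=
  cE P f m (H * p) M - cE P f m (H * p) (M * p)

/-- normalised conditional entropy along the path -/
noncomputable def aa (P : Set ℕ → ℝ) (f : ℕ → ℤˣ) (H m y : ℕ) : ℝ :=
  cE P f m (H * y) (Nat.factorial y) / ((H : ℝ) * y)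

/-- the primes in `(w, z]` -/
def pri (w z : ℕ) : Finset ℕ := (Finset.Ioc w z).filter Nat.Prime

/-- the integers in `[1, z]` all of whose prime factors are greater than `w` -/
def rough (w z : ℕ) : Finset ℕ := (Finset.Icc 1 z).filter (fun d => ∀ p ∈ d.primeFactors, w < p)

/-- averaging operator over the primes of `Q` -/
noncomputable def AQ (Q : Finset ℕ) (φ : ℕ → ℝ) (m : ℕ) : ℝ := ∑ p ∈ Q, (1 / (p : ℝ)) * φ (m * p)

/-- bounded function -/
def Bdd (f : ℕ → ℝ) : Prop := ∃ C, ∀ n, |f n| ≤ C

/-- shift invariant mean with the dilation property of logarithmic averages -/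
structure LogMean (μ : (ℕ → ℝ) → ℝ) : Prop where
  add : ∀ f g, Bdd f → Bdd g → μ (fun n => f n + g n) = μ f + μ g
  smul : ∀ (c : ℝ) (f : ℕ → ℝ), Bdd f → μ (fun n => c * f n) = c * μ f
  one : μ (fun _ => 1) = 1
  nonneg : ∀ f, Bdd f → (∀ n, 0 ≤ f n) → 0 ≤ μ f
  shift : ∀ f, Bdd f → μ (fun n => f (n + 1)) = μ f
  dil : ∀ d, 1 ≤ d → ∀ f : ℕ → ℝ, Bdd f → μ (fun n => if d ∣ n then f (n / d) else 0) = μ f / d

open Classical in
/-- the probability given by a mean -/
noncomputable def prob (μ : (ℕ → ℝ) → ℝ) (A : Set ℕ) : ℝ := μ (fun n => if n ∈ A then 1 else 0)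

/-- the Liouville function with values in the units -/
def lam (n : ℕ) : ℤˣ := (-1) ^ (ArithmeticFunction.cardFactors n)

end Pool.Agent.Helper18.ED
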