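import Pool.Agent.Helper18.ED.St

/-! # ED module ME: the sum of `1/p` over `(w, w^A]` is bounded -/

namespace Pool.Agent.Helper18.ED

open Finset

theorem me_block (y : ℕ) (hy : 2 ≤ y) :
    ∑ p ∈ pri y (2 * y), (1 / (p : ℝ)) ≤ 2 * Real.log 4 / Real.log y := by
  have hy0 : (0 : ℝ) < y := by positivity
  have hy1 : (1 : ℝ) < y := by exact_mod_cast (by omega : 1 < y)
  have hl : 0 < Real.log y := Real.log_pos hy1
  have h1 : ∑ p ∈ pri y (2 * y), (1 / (p : ℝ)) ≤
      ∑ p ∈ pri y (2 * y), Real.log p / (y * Real.log y) := by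
    refine Finset.sum_le_sum fun p hp => ?_
    unfold pri at hp
    rw [mem_filter, mem_Ioc] at hp
    have hp0 : (y : ℝ) < p := by exact_mod_cast hp.1.1
    rw [div_le_div_iff₀ (by linarith) (by positivity)]
    have h2 : Real.log y ≤ Real.log p := Real.log_le_log hy0 hp0.le
    nlinarith [mul_le_mul hp0.le h2 hl.le (by linarith : (0:ℝ) ≤ p)]
  have h2 : ∑ p ∈ pri y (2 * y), Real.log p ≤ Chebyshev.theta ((2 * y : ℕ) : ℝ) := by
    unfold Chebyshev.theta
    rw [Nat.floor_natCast]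
    refine Finset.sum_le_sum_of_subset_of_nonneg ?_ ?_
    · intro p hp
      unfold pri at hp
      rw [mem_filter, mem_Ioc] at hp ⊢
      exact ⟨⟨by omega, hp.1.2⟩, hp.2⟩
    · intro p hp _
      rw [mem_filter] at hp
      exact Real.log_nonneg (by exact_mod_cast hp.2.one_lt.le)
  have h3 := Chebyshev.theta_le_log4_mul_x (x := ((2 * y : ℕ) : ℝ)) (by positivity)
  rw [← Finset.sum_div] at h1
  refine h1.trans ?_
  rw [div_le_div_iff₀ (by positivity) hl]
  push_cast at h2 h3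
  have h4 := h2.trans h3
  calc (∑ p ∈ pri y (2 * y), Real.log p) * Real.log y
      ≤ (Real.log 4 * (2 * y)) * Real.log y := by gcongr
    _ = 2 * Real.log 4 * (y * Real.log y) := by ring

theorem me_blocks (w : ℕ) (hw : 2 ≤ w) (r : ℕ) :
    ∑ p ∈ pri w (2 ^ r * w), (1 / (p : ℝ)) ≤ r * (2 * Real.log 4 / Real.log w) := by
  have hw1 : (1 : ℝ) < w := by exact_mod_cast (by omega : 1 < w)
  have hl : 0 < Real.log w := Real.log_pos hw1
  induction r with
  | zero => simp [pri]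
  | succ r ih =>
    have h1 : pri w (2 ^ (r + 1) * w) ⊆ pri w (2 ^ r * w) ∪ pri (2 ^ r * w) (2 * (2 ^ r * w)) := by
      intro p hp
      unfold pri at *
      rw [mem_union, mem_filter, mem_filter, mem_Ioc, mem_Ioc]
      rw [mem_filter, mem_Ioc] at hp
      have h2 : 2 ^ (r + 1) * w = 2 * (2 ^ r * w) := by ring
      rw [h2] at hp
      rcases le_or_gt p (2 ^ r * w) with h | h
      · exact Or.inl ⟨⟨hp.1.1, h⟩, hp.2⟩
      · exact Or.inr ⟨⟨h, hp.1.2⟩, hp.2⟩
    have h2 : (w : ℝ) ≤ ((2 ^ r * w : ℕ) : ℝ) := by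
      exact_mod_cast Nat.le_mul_of_pos_left w (by positivity)
    have h3 := me_block (2 ^ r * w) (hw.trans (Nat.le_mul_of_pos_left w (by positivity)))
    have h4 : 2 * Real.log 4 / Real.log ((2 ^ r * w : ℕ) : ℝ) ≤ 2 * Real.log 4 / Real.log w := by
      have h5 : Real.log w ≤ Real.log ((2 ^ r * w : ℕ) : ℝ) := Real.log_le_log (by linarith) h2
      have h6 : 0 ≤ Real.log 4 := Real.log_nonneg (by norm_num)
      gcongr
    calc ∑ p ∈ pri w (2 ^ (r + 1) * w), (1 / (p : ℝ))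
        ≤ ∑ p ∈ pri w (2 ^ r * w) ∪ pri (2 ^ r * w) (2 * (2 ^ r * w)), (1 / (p : ℝ)) :=
          Finset.sum_le_sum_of_subset_of_nonneg h1 fun _ _ _ => by positivity
      _ ≤ ∑ p ∈ pri w (2 ^ r * w), (1 / (p : ℝ)) +
          ∑ p ∈ pri (2 ^ r * w) (2 * (2 ^ r * w)), (1 / (p : ℝ)) := by
          rw [← Finset.sum_union_inter]
          exact le_add_of_nonneg_right (Finset.sum_nonneg fun _ _ => by positivity)
      _ ≤ r * (2 * Real.log 4 / Real.log w) + 2 * Real.log 4 / Real.log w :=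
          add_le_add ih (h3.trans h4)
      _ = ((r + 1 : ℕ) : ℝ) * (2 * Real.log 4 / Real.log w) := by push_cast; ring

theorem pf_Mertens : StMertens := by
  intro A
  refine ⟨8 * A + 1, by linarith [(Nat.cast_nonneg A : (0 : ℝ) ≤ A)], fun w hw => ?_⟩
  have hw1 : (1 : ℝ) < w := by exact_mod_cast (by omega : 1 < w)
  have hl : 0 < Real.log w := Real.log_pos hw1
  have hl2 : 0 < Real.log 2 := Real.log_pos (by norm_num)
  have h2w : Real.log 2 ≤ Real.log w := Real.log_le_log (by norm_num) (by exact_mod_cast hw)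
  set r := A * (Nat.log 2 w + 1) with hr
  have h1 : w ^ A ≤ 2 ^ r * w := by
    have h2 : w < 2 ^ (Nat.log 2 w + 1) := Nat.lt_pow_succ_log_self (by norm_num) w
    calc w ^ A ≤ (2 ^ (Nat.log 2 w + 1)) ^ A := Nat.pow_le_pow_left h2.le A
      _ = 2 ^ r := by rw [← pow_mul, hr, mul_comm]
      _ ≤ 2 ^ r * w := Nat.le_mul_of_pos_right _ (by omega)
  have h3 : ∑ p ∈ pri w (w ^ A), (1 / (p : ℝ)) ≤ ∑ p ∈ pri w (2 ^ r * w), (1 / (p : ℝ)) := by
    refine Finset.sum_le_sum_of_subset_of_nonneg ?_ fun _ _ _ => by positivity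
    intro p hp
    unfold pri at *
    rw [mem_filter, mem_Ioc] at *
    exact ⟨⟨hp.1.1, hp.1.2.trans h1⟩, hp.2⟩
  refine (h3.trans (me_blocks w hw r)).trans ?_
  have h4 : (Nat.log 2 w : ℝ) ≤ Real.log w / Real.log 2 := by
    have := Real.natLog_le_logb w 2
    rwa [Real.logb] at this
  have h5 : (r : ℝ) ≤ A * (2 * (Real.log w / Real.log 2)) := by
    rw [hr]
    push_cast
    have h6 : 1 ≤ Real.log w / Real.log 2 := by
      rw [le_div_iff₀ hl2]; linarith
    gcongr
    linarith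
  have h7 : Real.log 4 = 2 * Real.log 2 := by
    rw [show (4 : ℝ) = 2 ^ 2 by norm_num, Real.log_pow]; norm_num
  have h8 : 0 ≤ 2 * Real.log 4 / Real.log w := by
    rw [h7]; positivity
  calc (r : ℝ) * (2 * Real.log 4 / Real.log w)
      ≤ (A * (2 * (Real.log w / Real.log 2))) * (2 * Real.log 4 / Real.log w) := by gcongr
    _ = 8 * A := by rw [h7]; field_simp; ring
    _ ≤ 8 * A + 1 := by linarith

end Pool.Agent.Helper18.ED
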