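import Pool.Agent.Helper18.ED.St

/-! Assembly: the main theorem from chains and rough numbers. -/

namespace Pool.Agent.Helper18.ED

open Finset

theorem TV_nonneg (P : Set ℕ → ℝ) (f : ℕ → ℤˣ) (m H M : ℕ) : 0 ≤ TV P f m H M := by
  unfold TV
  positivity

theorem pf_Main (hC : StChain) (hR : StRough) : StMain := by
  intro P hP f hf A H M hH hM δ hδ
  have hA : (0 : ℝ) < (A : ℝ) + 1 := by positivity
  choose w₀ hw₀ using fun k : ℕ => hC P hP f hf A k H M hH hM (δ / ((A : ℝ) + 1)) (by positivity)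
  refine ⟨max 2 ((range (A + 1)).sup w₀), fun w hw => ?_⟩
  have hw2 : 2 ≤ w := le_trans (le_max_left _ _) hw
  refine (hR w A hw2 (fun d => TV P f d H M) fun m => TV_nonneg P f m H M).trans ?_
  have h1 : ∀ k ∈ range (A + 1), (AQ (pri w (w ^ A)))^[k] (fun m => TV P f m H M) 1 ≤
      δ / ((A : ℝ) + 1) := by
    intro k hk
    refine hw₀ k w (le_trans ?_ hw)
    exact le_trans (Finset.le_sup (f := w₀) hk) (le_max_right _ _)
  refine (Finset.sum_le_sum h1).trans ?_
  rw [Finset.sum_const, card_range, nsmul_eq_mul]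
  push_cast
  rw [mul_div_cancel₀ _ hA.ne']

end Pool.Agent.Helper18.ED
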