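import Pool.Agent.Helper18.ED.St

namespace Pool.Agent.Helper18.ED

theorem ce1_FR_W (f : ℕ → ℤˣ) (m H : ℕ) : FR (fun n => W f m H n) := Set.toFinite _

theorem ce1_FR_W' (f : ℕ → ℤˣ) (m H k : ℕ) : FR (fun n => W f m H (n + k)) := Set.toFinite _

theorem ce1_FR_mod {M : ℕ} (hM : 1 ≤ M) : FR (fun n : ℕ => n % M) := by
  apply (Set.finite_lt_nat M).subset
  rintro _ ⟨n, rfl⟩
  exact Nat.mod_lt _ hM

theorem ce1_FR_prod {S S' : Type} {X : ℕ → S} {Y : ℕ → S'} (hX : FR X) (hY : FR Y) :
    FR (fun n => (X n, Y n)) := by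
  apply (hX.prod hY).subset
  rintro _ ⟨n, rfl⟩
  exact ⟨⟨n, rfl⟩, ⟨n, rfl⟩⟩

theorem pf_CEnonneg (hMono : StEntMono) : StCEnonneg := by
  intro P hP f m H M hM
  rw [cE, sub_nonneg]
  apply hMono P hP
  · exact ce1_FR_prod (ce1_FR_W f m H) (ce1_FR_mod hM)
  · exact ce1_FR_mod hM
  · intro n n' h
    exact (Prod.mk.inj h).2

theorem pf_CEmono (hMono : StEntMono) : StCEmono := by
  intro P hP f m H H' M hM hH
  rw [cE, cE]
  apply sub_le_sub_right
  apply hMono P hP
  · exact ce1_FR_prod (ce1_FR_W f m H') (ce1_FR_mod hM)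
  · exact ce1_FR_prod (ce1_FR_W f m H) (ce1_FR_mod hM)
  · intro n n' h
    obtain ⟨h1, h2⟩ := Prod.mk.inj h
    refine Prod.ext ?_ h2
    funext j
    exact congrFun h1 (Fin.castLE hH j)

theorem pf_CEsub (hCongr : StEntCongr) (hShift : StEntShift) (hSub : StSubmod) : StCEsub := by
  intro P hP f m H H' M hM
  have h1 := hSub P hP (fun n => W f m H n) (fun n => W f m H' (n + m * H)) (fun n => n % M)
    (ce1_FR_W f m H) (ce1_FR_W' f m H' _) (ce1_FR_mod hM)
  have h2 : ent P (fun n => (W f m (H + H') n, n % M)) =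
      ent P (fun n => (W f m H n, W f m H' (n + m * H), n % M)) := by
    apply hCongr P hP
    · exact ce1_FR_prod (ce1_FR_W f m _) (ce1_FR_mod hM)
    · intro n n'
      simp only [Prod.mk.injEq]
      constructor
      · rintro ⟨h, h'⟩
        refine ⟨?_, ?_, h'⟩
        · funext j
          exact congrFun h (Fin.castAdd H' j)
        · funext j
          have := congrFun h (Fin.natAdd H j)
          simp only [W, Fin.val_natAdd] at this
          simp only [W]
          rw [mul_add, ← add_assoc, ← add_assoc] at this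
          exact this
      · rintro ⟨ha, hb, h'⟩
        refine ⟨?_, h'⟩
        funext j
        refine Fin.addCases (fun j => ?_) (fun j => ?_) j
        · exact congrFun ha j
        · have := congrFun hb j
          simp only [W] at this
          simp only [W, Fin.val_natAdd]
          rw [mul_add, ← add_assoc, ← add_assoc]
          exact this
  have h3 : ent P (fun n => (W f m H' (n + m * H), n % M)) =
      ent P (fun n => (W f m H' n, n % M)) := by
    rw [← hShift P hP (fun n => (W f m H' n, n % M)) (m * H)]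
    apply hCongr P hP
    · exact ce1_FR_prod (ce1_FR_W' f m _ _) (ce1_FR_mod hM)
    · intro n n'
      simp only [Prod.mk.injEq]
      apply and_congr_right
      intro _
      constructor
      · intro h
        exact Nat.ModEq.add_right _ h
      · intro h
        exact Nat.ModEq.add_right_cancel' _ h
  rw [cE, cE, cE, h2]
  rw [h3] at h1
  linarith

theorem pf_CEanti (hCongr : StEntCongr) (hSub : StSubmod) : StCEanti := by
  intro P hP f m H M M' hM' hdvd
  have hM : 1 ≤ M := Nat.pos_of_dvd_of_pos hdvd hM'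
  have hmod : ∀ n n' : ℕ, n % M' = n' % M' → n % M = n' % M := by
    intro n n' h
    exact Nat.ModEq.of_dvd hdvd h
  have h1 := hSub P hP (fun n => W f m H n) (fun n => n % M') (fun n => n % M)
    (ce1_FR_W f m H) (ce1_FR_mod hM') (ce1_FR_mod hM)
  have h2 : ent P (fun n => (W f m H n, n % M')) =
      ent P (fun n => (W f m H n, n % M', n % M)) := by
    apply hCongr P hP
    · exact ce1_FR_prod (ce1_FR_W f m _) (ce1_FR_mod hM')
    · intro n n'
      simp only [Prod.mk.injEq]
      constructor
      · rintro ⟨h, h'⟩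
        exact ⟨h, h', hmod _ _ h'⟩
      · rintro ⟨h, h', _⟩
        exact ⟨h, h'⟩
  have h3 : ent P (fun n => n % M') = ent P (fun n => (n % M', n % M)) := by
    apply hCongr P hP
    · exact ce1_FR_mod hM'
    · intro n n'
      simp only [Prod.mk.injEq]
      constructor
      · intro h
        exact ⟨h, hmod _ _ h⟩
      · rintro ⟨h, _⟩
        exact h
  rw [cE, cE, h2, h3]
  linarith

end Pool.Agent.Helper18.ED
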