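import Pool.Agent.Helper18.ED.St

namespace Pool.Agent.Helper18.ED

theorem ce2_FR_W (f : ℕ → ℤˣ) (m H : ℕ) : FR (fun n => W f m H n) := Set.toFinite _

theorem ce2_FR_mod {M : ℕ} (hM : 1 ≤ M) : FR (fun n : ℕ => n % M) := by
  apply (Set.finite_lt_nat M).subset
  rintro _ ⟨n, rfl⟩
  exact Nat.mod_lt _ hM

theorem ce2_FR_prod {S S' : Type} {X : ℕ → S} {Y : ℕ → S'} (hX : FR X) (hY : FR Y) :
    FR (fun n => (X n, Y n)) := by
  apply (hX.prod hY).subset
  rintro _ ⟨n, rfl⟩
  exact ⟨⟨n, rfl⟩, ⟨n, rfl⟩⟩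

theorem ce2_mod {M p : ℕ} (h : Nat.Coprime M p) (n n' : ℕ) :
    n % (M * p) = n' % (M * p) ↔ n % M = n' % M ∧ n % p = n' % p :=
  (Nat.modEq_and_modEq_iff_modEq_mul h).symm

theorem pf_CEinf (hCongr : StEntCongr) (hMod : StEntMod) (hSub : StSubmod) : StCEinf := by
  intro P hP f m H H' M M' p hM' hp hH hdvd hcop
  have hM : 1 ≤ M := Nat.pos_of_dvd_of_pos hdvd hM'
  have hcop' : Nat.Coprime M p := hcop.coprime_dvd_left hdvd
  have hmod : ∀ n n' : ℕ, n % M' = n' % M' → n % M = n' % M := by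
    intro n n' h
    exact Nat.ModEq.of_dvd hdvd h
  have hW : ∀ n n' : ℕ, W f m H' n = W f m H' n' → W f m H n = W f m H n' := by
    intro n n' h
    funext j
    exact congrFun h (Fin.castLE hH j)
  have h1 := hSub P hP (fun n => (W f m H' n, n % M')) (fun n => n % p)
    (fun n => (W f m H n, n % M))
    (ce2_FR_prod (ce2_FR_W f m H') (ce2_FR_mod hM')) (ce2_FR_mod hp)
    (ce2_FR_prod (ce2_FR_W f m H) (ce2_FR_mod hM))
  have hMp' : 1 ≤ M' * p := Nat.mul_pos hM' hp
  have hMp : 1 ≤ M * p := Nat.mul_pos hM hp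
  have h2 : ent P (fun n => (W f m H' n, n % (M' * p))) =
      ent P (fun n => ((W f m H' n, n % M'), n % p, (W f m H n, n % M))) := by
    apply hCongr P hP
    · exact ce2_FR_prod (ce2_FR_W f m _) (ce2_FR_mod hMp')
    · intro n n'
      simp only [Prod.mk.injEq, ce2_mod hcop]
      constructor
      · rintro ⟨ha, hb, hc⟩
        exact ⟨⟨ha, hb⟩, hc, hW _ _ ha, hmod _ _ hb⟩
      · rintro ⟨⟨ha, hb⟩, hc, _, _⟩
        exact ⟨ha, hb, hc⟩
  have h3 : ent P (fun n => (W f m H' n, n % M')) =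
      ent P (fun n => ((W f m H' n, n % M'), (W f m H n, n % M))) := by
    apply hCongr P hP
    · exact ce2_FR_prod (ce2_FR_W f m _) (ce2_FR_mod hM')
    · intro n n'
      simp only [Prod.mk.injEq]
      constructor
      · rintro ⟨ha, hb⟩
        exact ⟨⟨ha, hb⟩, hW _ _ ha, hmod _ _ hb⟩
      · rintro ⟨⟨ha, hb⟩, _, _⟩
        exact ⟨ha, hb⟩
  have h4 : ent P (fun n => (W f m H n, n % (M * p))) =
      ent P (fun n => (n % p, (W f m H n, n % M))) := by
    apply hCongr P hP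
    · exact ce2_FR_prod (ce2_FR_W f m _) (ce2_FR_mod hMp)
    · intro n n'
      simp only [Prod.mk.injEq, ce2_mod hcop']
      constructor
      · rintro ⟨ha, hb, hc⟩
        exact ⟨hc, ha, hb⟩
      · rintro ⟨hc, ha, hb⟩
        exact ⟨ha, hb, hc⟩
  have h5 := hMod P hP M hM
  have h6 := hMod P hP M' hM'
  have h7 := hMod P hP (M * p) hMp
  have h8 := hMod P hP (M' * p) hMp'
  have hl : ∀ a : ℕ, 1 ≤ a → Real.log ((a * p : ℕ) : ℝ) = Real.log a + Real.log p := by
    intro a ha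
    rw [Nat.cast_mul, Real.log_mul]
    · exact_mod_cast (by omega : a ≠ 0)
    · exact_mod_cast (by omega : p ≠ 0)
  rw [hl M hM] at h7
  rw [hl M' hM'] at h8
  rw [cE, cE, cE, cE, h5, h6, h7, h8, h2, h4]
  rw [← h3] at h1
  linarith

theorem pf_CEinfNonneg (hAnti : StCEanti) : StCEinfNonneg := by
  intro P hP f m H M p hM hp
  rw [sub_nonneg]
  exact hAnti P hP f m H M (M * p) (Nat.mul_pos hM hp) (Dvd.intro p rfl)

theorem pf_CEsuper (hInf : StCEinf) : StCEsuper := by
  classical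
  intro P hP f m H M Q hM
  induction Q using Finset.induction_on with
  | empty =>
    intro _
    simp
  | insert q Q hq ih =>
    intro hQ
    have h1 := ih (fun p hp => hQ p (Finset.mem_insert_of_mem hp))
    have hqp := hQ q (Finset.mem_insert_self _ _)
    have hpos : 1 ≤ ∏ p ∈ Q, p := by
      apply Nat.pos_of_ne_zero
      rw [Finset.prod_ne_zero_iff]
      intro p hp
      exact (hQ p (Finset.mem_insert_of_mem hp)).1.ne_zero
    have hcop : Nat.Coprime (M * ∏ p ∈ Q, p) q := by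
      apply Nat.Coprime.mul_left hqp.2
      apply Nat.Coprime.prod_left
      intro p hp
      rw [Nat.coprime_primes (hQ p (Finset.mem_insert_of_mem hp)).1 hqp.1]
      rintro rfl
      exact hq hp
    have h2 := hInf P hP f m H H M (M * ∏ p ∈ Q, p) q (Nat.mul_pos hM hpos) hqp.1.one_lt.le le_rfl
      (Dvd.intro _ rfl) hcop
    rw [Finset.sum_insert hq, Finset.prod_insert hq]
    have h3 : M * (q * ∏ p ∈ Q, p) = M * (∏ p ∈ Q, p) * q := by ring
    rw [h3]
    linarith

theorem pf_CEmut (hCongr : StEntCongr) (hMod : StEntMod) : StCEmut := by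
  intro P hP f m H M p hM hp hcop
  have hMp : 1 ≤ M * p := Nat.mul_pos hM hp
  have h2 : ent P (fun n => (W f m H n, n % (M * p))) =
      ent P (fun n => ((W f m H n, n % M), n % p)) := by
    apply hCongr P hP
    · exact ce2_FR_prod (ce2_FR_W f m _) (ce2_FR_mod hMp)
    · intro n n'
      simp only [Prod.mk.injEq, ce2_mod hcop]
      constructor
      · rintro ⟨ha, hb, hc⟩
        exact ⟨⟨ha, hb⟩, hc⟩
      · rintro ⟨⟨ha, hb⟩, hc⟩
        exact ⟨ha, hb, hc⟩
  have h5 := hMod P hP M hM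
  have h6 := hMod P hP p hp
  have h7 := hMod P hP (M * p) hMp
  have hl : Real.log ((M * p : ℕ) : ℝ) = Real.log M + Real.log p := by
    rw [Nat.cast_mul, Real.log_mul]
    · exact_mod_cast (by omega : M ≠ 0)
    · exact_mod_cast (by omega : p ≠ 0)
  rw [hl] at h7
  rw [cE, cE, h5, h6, h7, h2]
  linarith

end Pool.Agent.Helper18.ED
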