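import Pool.Agent.Helper18.ED.St

/-! Module CE3: interleaving. -/

namespace Pool.Agent.Helper18.ED

open Finset

namespace CE3

/-- the windows of step `m` starting at `n, n+1, …, n+k-1` -/
def J (f : ℕ → ℤˣ) (m H k n : ℕ) : Fin k → Fin H → ℤˣ := fun r => W f m H (n + r)

lemma fr_mod {M : ℕ} (hM : 1 ≤ M) : FR (fun n => n % M) := by
  apply (Finset.range M).finite_toSet.subset
  rintro _ ⟨n, rfl⟩
  simp only [Finset.coe_range, Set.mem_Iio]
  exact Nat.mod_lt _ (by omega)

lemma fr_fin {S : Type} [Finite S] (X : ℕ → S) : FR X := Set.toFinite _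

lemma fr_prod {S S' : Type} {X : ℕ → S} {Y : ℕ → S'} (hX : FR X) (hY : FR Y) :
    FR (fun n => (X n, Y n)) := by
  apply (hX.prod hY).subset
  rintro _ ⟨n, rfl⟩
  exact ⟨⟨n, rfl⟩, ⟨n, rfl⟩⟩

lemma mod_add_iff (M k n n' : ℕ) : (n + k) % M = (n' + k) % M ↔ n % M = n' % M := by
  constructor
  · intro h
    exact Nat.ModEq.add_right_cancel' k h
  · intro h
    exact Nat.ModEq.add_right k h

lemma J_succ (f : ℕ → ℤˣ) (m H k n n' : ℕ) :
    J f m H (k + 1) n = J f m H (k + 1) n' ↔
      J f m H k n = J f m H k n' ∧ W f m H (n + k) = W f m H (n' + k) := by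
  constructor
  · intro h
    refine ⟨?_, ?_⟩
    · funext r
      have := congrFun h r.castSucc
      simpa [J] using this
    · have := congrFun h (Fin.last k)
      simpa [J] using this
  · rintro ⟨h1, h2⟩
    funext r
    refine Fin.lastCases ?_ (fun r => ?_) r
    · simpa [J] using h2
    · have := congrFun h1 r
      simpa [J] using this

lemma J_ker (f : ℕ → ℤˣ) (m H n n' : ℕ) (hm : 1 ≤ m) :
    W f 1 (m * H) n = W f 1 (m * H) n' ↔ J f m H m n = J f m H m n' := by
  constructor
  · intro h
    funext r j
    have hlt : (r : ℕ) + m * j < m * H := by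
      have h1 := r.2
      have h2 : (j : ℕ) + 1 ≤ H := j.2
      calc (r : ℕ) + m * j < m + m * j := by omega
        _ = m * (j + 1) := by ring
        _ ≤ m * H := Nat.mul_le_mul_left _ h2
    have := congrFun h ⟨(r : ℕ) + m * j, hlt⟩
    simp only [W, one_mul] at this
    simp only [J, W]
    rw [add_assoc, add_assoc]
    exact this
  · intro h
    funext i
    have hi := i.2
    have hH : (i : ℕ) / m < H := Nat.div_lt_of_lt_mul hi
    have hr : (i : ℕ) % m < m := Nat.mod_lt _ (by omega)
    have := congrFun (congrFun h ⟨(i : ℕ) % m, hr⟩) ⟨(i : ℕ) / m, hH⟩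
    simp only [J, W] at this
    simp only [W, one_mul]
    rw [add_assoc, add_assoc, Nat.mod_add_div] at this
    exact this

end CE3

open CE3

theorem pf_CEinter (hC : StEntCongr) (hS : StEntShift) (hM : StSubmod) : StCEinter := by
  intro P hP f m H M hM1 hm1
  have frM : FR (fun n => n % M) := fr_mod hM1
  have key : ∀ k : ℕ, ent P (fun n => (J f m H k n, n % M)) - ent P (fun n => n % M) ≤
      k * cE P f m H M := by
    intro k
    induction k with
    | zero =>
      have : ent P (fun n => (J f m H 0 n, n % M)) = ent P (fun n => n % M) := by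
        apply hC P hP _ _ (fr_prod (fr_fin _) frM)
        intro n n'
        simp only [Prod.mk.injEq]
        constructor
        · exact fun h => h.2
        · exact fun h => ⟨Subsingleton.elim _ _, h⟩
      rw [this]
      simp
    | succ k ih =>
      have h1 : ent P (fun n => (J f m H (k + 1) n, n % M)) =
          ent P (fun n => (J f m H k n, W f m H (n + k), n % M)) := by
        apply hC P hP _ _ (fr_prod (fr_fin _) frM)
        intro n n'
        simp only [Prod.mk.injEq, J_succ]
        tauto
      have h2 := hM P hP (J f m H k) (fun n => W f m H (n + k)) (fun n => n % M) (fr_fin _)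
        (fr_fin _) frM
      have h3 : ent P (fun n => (W f m H (n + k), n % M)) =
          ent P (fun n => (W f m H n, n % M)) := by
        rw [← hS P hP (fun n => (W f m H n, n % M)) k]
        apply hC P hP _ _ (fr_prod (fr_fin _) frM)
        intro n n'
        simp only [Prod.mk.injEq, mod_add_iff]
      have h4 : cE P f m H M = ent P (fun n => (W f m H n, n % M)) - ent P (fun n => n % M) := rfl
      rw [h1]
      rw [h3] at h2
      push_cast
      rw [add_mul, one_mul]
      have h5 : ent P (fun n => (J f m H k n, W f m H (n + k), n % M)) + ent P (fun n => n % M) ≤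
          ent P (fun n => (J f m H k n, n % M)) + ent P (fun n => (W f m H n, n % M)) := h2
      linarith
  have h1 : ent P (fun n => (W f 1 (m * H) n, n % M)) =
      ent P (fun n => (J f m H m n, n % M)) := by
    apply hC P hP _ _ (fr_prod (fr_fin _) frM)
    intro n n'
    simp only [Prod.mk.injEq, J_ker f m H n n' hm1]
  have := key m
  unfold cE at this ⊢
  rw [h1]
  exact this

end Pool.Agent.Helper18.ED
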