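import Pool.Agent.Helper18.ED.St

set_option autoImplicit false

/-! # Module CH: chains -/

namespace Pool.Agent.Helper18.ED

open Finset

/-- products of `k` elements of `Q` -/
def CHprod (Q : Finset ℕ) : ℕ → ℕ → Prop
  | 0, m => m = 1
  | k + 1, m => ∃ m', CHprod Q k m' ∧ ∃ p ∈ Q, m = m' * p

theorem CH_AQ_add (Q : Finset ℕ) (φ ψ : ℕ → ℝ) :
    AQ Q (fun m => φ m + ψ m) = fun m => AQ Q φ m + AQ Q ψ m := by
  funext m
  simp only [AQ, mul_add, Finset.sum_add_distrib]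

theorem CH_AQ_smul (Q : Finset ℕ) (c : ℝ) (φ : ℕ → ℝ) :
    AQ Q (fun m => c * φ m) = fun m => c * AQ Q φ m := by
  funext m
  simp only [AQ, Finset.mul_sum]
  refine Finset.sum_congr rfl fun p _ => by ring

theorem CH_it_add (Q : Finset ℕ) (k : ℕ) : ∀ (φ ψ : ℕ → ℝ),
    (AQ Q)^[k] (fun m => φ m + ψ m) = fun m => (AQ Q)^[k] φ m + (AQ Q)^[k] ψ m := by
  induction k with
  | zero => intro φ ψ; rfl
  | succ k ih =>
    intro φ ψ
    rw [Function.iterate_succ_apply, CH_AQ_add, ih, Function.iterate_succ_apply,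
      Function.iterate_succ_apply]

theorem CH_it_smul (Q : Finset ℕ) (k : ℕ) : ∀ (c : ℝ) (φ : ℕ → ℝ),
    (AQ Q)^[k] (fun m => c * φ m) = fun m => c * (AQ Q)^[k] φ m := by
  induction k with
  | zero => intro c φ; rfl
  | succ k ih =>
    intro c φ
    rw [Function.iterate_succ_apply, CH_AQ_smul, ih, Function.iterate_succ_apply]

theorem CH_it_const (Q : Finset ℕ) {C : ℝ} (hC : 0 ≤ C) (hQ : ∑ p ∈ Q, (1 / (p : ℝ)) ≤ C)
    (k : ℕ) : ∀ (b : ℝ), 0 ≤ b → ∀ m, (AQ Q)^[k] (fun _ => b) m ≤ b * C ^ k := by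
  induction k with
  | zero => intro b _ m; simp
  | succ k ih =>
    intro b hb m
    rw [Function.iterate_succ_apply]
    have h1 : AQ Q (fun _ => b) = fun _ => (∑ p ∈ Q, (1 / (p : ℝ))) * b := by
      funext m
      simp only [AQ, Finset.sum_mul]
    have h0 : 0 ≤ ∑ p ∈ Q, (1 / (p : ℝ)) := Finset.sum_nonneg fun p _ => by positivity
    rw [h1]
    refine (ih _ (mul_nonneg h0 hb) m).trans ?_
    rw [pow_succ]
    have h2 : (∑ p ∈ Q, (1 / (p : ℝ))) * b ≤ C * b := mul_le_mul_of_nonneg_right hQ hb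
    calc (∑ p ∈ Q, (1 / (p : ℝ))) * b * C ^ k ≤ C * b * C ^ k :=
          mul_le_mul_of_nonneg_right h2 (pow_nonneg hC _)
      _ = b * (C ^ k * C) := by ring

theorem CH_it_mono (Q : Finset ℕ) (k : ℕ) : ∀ (φ ψ : ℕ → ℝ), (∀ m, CHprod Q k m → φ m ≤ ψ m) →
    (AQ Q)^[k] φ 1 ≤ (AQ Q)^[k] ψ 1 := by
  induction k with
  | zero => intro φ ψ h; exact h 1 rfl
  | succ k ih =>
    intro φ ψ h
    rw [Function.iterate_succ_apply, Function.iterate_succ_apply]
    refine ih _ _ fun m hm => ?_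
    refine Finset.sum_le_sum fun p hp => ?_
    exact mul_le_mul_of_nonneg_left (h (m * p) ⟨m, hm, p, hp, rfl⟩) (by positivity)

theorem CH_prod_facts {w z k : ℕ} : ∀ m, CHprod (pri w z) k m →
    1 ≤ m ∧ (∀ p, p.Prime → p ∣ m → w < p) ∧ ((pri w z).filter (fun p => p ∣ m)).card ≤ k := by
  induction k with
  | zero =>
    intro m hm
    rw [show m = 1 from hm]
    refine ⟨le_rfl, ?_, ?_⟩
    · intro p hp hd
      exact absurd (Nat.dvd_one.1 hd) hp.one_lt.ne'
    · rw [Nat.le_zero, Finset.card_eq_zero, Finset.filter_eq_empty_iff]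
      intro p hp hd
      rw [pri, Finset.mem_filter] at hp
      exact absurd (Nat.dvd_one.1 hd) hp.2.one_lt.ne'
  | succ k ih =>
    rintro m ⟨m', hm', q, hq, rfl⟩
    obtain ⟨h1, h2, h3⟩ := ih m' hm'
    have hq' := hq
    rw [pri, Finset.mem_filter, Finset.mem_Ioc] at hq'
    refine ⟨Nat.mul_pos h1 hq'.2.pos, ?_, ?_⟩
    · intro p hp hd
      rcases (Nat.Prime.dvd_mul hp).1 hd with h | h
      · exact h2 p hp h
      · rw [(Nat.prime_dvd_prime_iff_eq hp hq'.2).1 h]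
        exact hq'.1.1
    · have hsub : (pri w z).filter (fun p => p ∣ m' * q) ⊆
          insert q ((pri w z).filter (fun p => p ∣ m')) := by
        intro p hp
        rw [Finset.mem_filter] at hp
        have hpp := hp.1
        rw [pri, Finset.mem_filter] at hpp
        rw [Finset.mem_insert, Finset.mem_filter]
        rcases (Nat.Prime.dvd_mul hpp.2).1 hp.2 with h | h
        · exact Or.inr ⟨hp.1, h⟩
        · exact Or.inl ((Nat.prime_dvd_prime_iff_eq hpp.2 hq'.2).1 h)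
      refine (Finset.card_le_card hsub).trans ((Finset.card_insert_le _ _).trans ?_)
      omega

/-- `√x ≤ (t + x / t) / 2` -/
theorem CH_sqrt {x t : ℝ} (hx : 0 ≤ x) (ht : 0 < t) : 2 * Real.sqrt x ≤ t + x / t := by
  have h1 := sq_nonneg (Real.sqrt x - t)
  have h2 := Real.sq_sqrt hx
  have h3 : t + x / t = (t ^ 2 + x) / t := by field_simp
  rw [h3, le_div_iff₀ ht]
  nlinarith

theorem CH_bound (hTVle : StTVle) (hLaw : StLaw) (hNon : StCEinfNonneg)
    {P : Set ℕ → ℝ} (hP : LogProb P) {f : ℕ → ℤˣ} (hf : CM f) {H M w A k r : ℕ} (hM : 1 ≤ M)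
    (hwM : M ≤ w) (hw : 1 ≤ w) {C : ℝ} (hC1 : 1 ≤ C)
    (hC : ∑ p ∈ pri w (w ^ A), (1 / (p : ℝ)) ≤ C)
    (hr : w ^ A ≤ 2 ^ r * w) {t : ℝ} (ht : 0 < t) {m : ℕ} (hm : CHprod (pri w (w ^ A)) k m)
    (hinf : ∑ p ∈ pri w (2 ^ r * w), (1 / (p : ℝ)) * inf P f m H M p ≤ t ^ 2) :
    AQ (pri w (w ^ A)) (fun m => TV P f m H M) m ≤
      C * TV P f m H M + (2 * C * t + 2 * k / w) := by
  obtain ⟨hm1, hmr, hmk⟩ := CH_prod_facts m hm
  set Q := pri w (w ^ A) with hQ
  have hTV0 : ∀ m, 0 ≤ TV P f m H M := fun m =>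
    Finset.sum_nonneg fun x _ => Finset.sum_nonneg fun r _ => abs_nonneg _
  have hI0 : ∀ p, 1 ≤ p → 0 ≤ inf P f m H M p := fun p hp => hNon P hP f m (H * p) M p hM hp
  have hw0 : (0 : ℝ) < w := by exact_mod_cast hw
  have hpw : ∀ p ∈ Q, p.Prime ∧ w < p := fun p hp => by
    rw [hQ, pri, Finset.mem_filter, Finset.mem_Ioc] at hp
    exact ⟨hp.2, hp.1.1⟩
  have hterm : ∀ p ∈ Q, (1 / (p : ℝ)) * TV P f (m * p) H M ≤
      (1 / (p : ℝ)) * TV P f m H M + (1 / (p : ℝ)) * (t + inf P f m H M p / t) +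
        (if p ∣ m then (2 / w : ℝ) else 0) := by
    intro p hp
    obtain ⟨hpp, hpw'⟩ := hpw p hp
    have hp0 : (0 : ℝ) < p := by exact_mod_cast hpp.pos
    have hcopM : Nat.Coprime M p :=
      ((Nat.Prime.coprime_iff_not_dvd hpp).2 (Nat.not_dvd_of_pos_of_lt hM (by omega))).symm
    have hI := hI0 p hpp.one_lt.le
    have hs := CH_sqrt hI ht
    split_ifs with hd
    · have h1 : (1 / (p : ℝ)) * TV P f (m * p) H M ≤ 2 / w := by
        have h2 := hTVle P hP f (m * p) H M hM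
        have h3 : (1 / (p : ℝ)) ≤ 1 / w :=
          one_div_le_one_div_of_le hw0 (by exact_mod_cast hpw'.le)
        calc (1 / (p : ℝ)) * TV P f (m * p) H M ≤ (1 / (w : ℝ)) * 2 :=
              mul_le_mul h3 h2 (hTV0 _) (by positivity)
          _ = 2 / w := by ring
      have h4 : 0 ≤ (1 / (p : ℝ)) * TV P f m H M := mul_nonneg (by positivity) (hTV0 m)
      have h5 : 0 ≤ (1 / (p : ℝ)) * (t + inf P f m H M p / t) := by positivity
      linarith
    · have hcop : Nat.Coprime m p := ((Nat.Prime.coprime_iff_not_dvd hpp).2 hd).symm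
      have h1 := hLaw P hP f hf m H M p hM hm1 hpp hcopM hcop
      have h2 : TV P f (m * p) H M ≤ TV P f m H M + (t + inf P f m H M p / t) := by linarith
      calc (1 / (p : ℝ)) * TV P f (m * p) H M ≤
          (1 / (p : ℝ)) * (TV P f m H M + (t + inf P f m H M p / t)) :=
            mul_le_mul_of_nonneg_left h2 (by positivity)
        _ = _ := by ring
  have hsum : AQ Q (fun m => TV P f m H M) m ≤
      (∑ p ∈ Q, (1 / (p : ℝ))) * TV P f m H M + ((∑ p ∈ Q, (1 / (p : ℝ))) * t +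
        (∑ p ∈ Q, (1 / (p : ℝ)) * inf P f m H M p) / t) +
        ∑ p ∈ Q, (if p ∣ m then (2 / w : ℝ) else 0) := by
    refine (Finset.sum_le_sum hterm).trans (le_of_eq ?_)
    have e : ∑ p ∈ Q, (1 / (p : ℝ)) * (t + inf P f m H M p / t) =
        (∑ p ∈ Q, (1 / (p : ℝ))) * t + (∑ p ∈ Q, (1 / (p : ℝ)) * inf P f m H M p) / t := by
      rw [Finset.sum_mul, Finset.sum_div, ← Finset.sum_add_distrib]
      refine Finset.sum_congr rfl fun p _ => by ring
    rw [Finset.sum_add_distrib, Finset.sum_add_distrib, e, Finset.sum_mul _ _ (TV P f m H M)]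
  have hsub : Q ⊆ pri w (2 ^ r * w) := by
    intro p hp
    rw [hQ, pri, Finset.mem_filter, Finset.mem_Ioc] at hp
    rw [pri, Finset.mem_filter, Finset.mem_Ioc]
    exact ⟨⟨hp.1.1, hp.1.2.trans hr⟩, hp.2⟩
  have hI2 : ∑ p ∈ Q, (1 / (p : ℝ)) * inf P f m H M p ≤ t ^ 2 := by
    refine (Finset.sum_le_sum_of_subset_of_nonneg hsub fun p hp _ => ?_).trans hinf
    rw [pri, Finset.mem_filter] at hp
    exact mul_nonneg (by positivity) (hI0 p hp.2.one_lt.le)
  have hlast : ∑ p ∈ Q, (if p ∣ m then (2 / w : ℝ) else 0) ≤ 2 * k / w := by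
    rw [← Finset.sum_filter, Finset.sum_const, nsmul_eq_mul]
    have h1 : (((Q.filter (fun p => p ∣ m)).card : ℕ) : ℝ) ≤ k := by exact_mod_cast hmk
    calc (((Q.filter (fun p => p ∣ m)).card : ℕ) : ℝ) * (2 / w) ≤ k * (2 / w) :=
          mul_le_mul_of_nonneg_right h1 (by positivity)
      _ = 2 * k / w := by ring
  have h6 : (∑ p ∈ Q, (1 / (p : ℝ))) * TV P f m H M ≤ C * TV P f m H M :=
    mul_le_mul_of_nonneg_right hC (hTV0 m)
  have h7 : (∑ p ∈ Q, (1 / (p : ℝ))) * t ≤ C * t := mul_le_mul_of_nonneg_right hC ht.le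
  have h8 : (∑ p ∈ Q, (1 / (p : ℝ)) * inf P f m H M p) / t ≤ C * t := by
    rw [div_le_iff₀ ht]
    nlinarith [mul_pos ht ht]
  linarith

theorem pf_Chain (hTVle : StTVle) (hTVone : StTVone) (hLaw : StLaw) (hMer : StMertens)
    (hStep : StStep) (hNon : StCEinfNonneg) : StChain := by
  intro P hP f hf A k
  obtain ⟨C, hC1, hC⟩ := hMer A
  induction k with
  | zero =>
    intro H M _ _ δ hδ
    refine ⟨0, fun w _ => ?_⟩
    show TV P f 1 H M ≤ δ
    rw [hTVone P hP f hf H M]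
    exact hδ.le
  | succ k ih =>
    intro H M hH hM δ hδ
    have hC0 : 0 < C := by linarith
    set t : ℝ := δ / (8 * C ^ (k + 1)) with ht
    have ht0 : 0 < t := by positivity
    obtain ⟨H₁, M₁, δ₁, hδ₁, w₁, hH₁, hM₁, hst⟩ := hStep P hP f H M hH hM (t ^ 2) (by positivity)
    obtain ⟨w₂, hw₂⟩ := ih H M hH hM (δ / (4 * C)) (by positivity)
    obtain ⟨w₃, hw₃⟩ := ih H₁ M₁ hH₁ hM₁ (δ * δ₁ / (8 * C)) (by positivity)
    obtain ⟨w₄, hw₄⟩ := exists_nat_gt (8 * k * C ^ k / δ)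
    refine ⟨max (max (max w₁ w₂) (max w₃ w₄)) (max M 2), fun w hw => ?_⟩
    have hw1 : w₁ ≤ w := by omega
    have hw2 : w₂ ≤ w := by omega
    have hw3 : w₃ ≤ w := by omega
    have hw4 : w₄ ≤ w := by omega
    have hwM : M ≤ w := by omega
    have hw5 : 2 ≤ w := by omega
    have hS := hC w hw5
    obtain ⟨r, hr⟩ : ∃ r : ℕ, w ^ A ≤ 2 ^ r * w := by
      refine ⟨w ^ A, ?_⟩
      calc w ^ A ≤ 2 ^ (w ^ A) := Nat.lt_two_pow_self.le
        _ ≤ 2 ^ (w ^ A) * w := Nat.le_mul_of_pos_right _ (by omega)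
    have hTV0 : ∀ (H M m : ℕ), 0 ≤ TV P f m H M := fun H M m =>
      Finset.sum_nonneg fun x _ => Finset.sum_nonneg fun r _ => abs_nonneg _
    rw [Function.iterate_succ_apply]
    have hmain : ∀ m, CHprod (pri w (w ^ A)) k m →
        AQ (pri w (w ^ A)) (fun m => TV P f m H M) m ≤
        (C * TV P f m H M + (2 * C * t + 2 * k / w)) + (2 * C / δ₁) * TV P f m H₁ M₁ := by
      intro m hm
      obtain ⟨hm1, hmr, _⟩ := CH_prod_facts m hm
      by_cases hcase : TV P f m H₁ M₁ ≤ δ₁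
      · have h1 := CH_bound hTVle hLaw hNon hP hf hM hwM (by omega) hC1 hS hr ht0 hm
          (hst w hw1 m hm1 hmr hcase r)
        have h2 : 0 ≤ (2 * C / δ₁) * TV P f m H₁ M₁ := mul_nonneg (by positivity) (hTV0 _ _ _)
        linarith
      · push Not at hcase
        have h1 : AQ (pri w (w ^ A)) (fun m => TV P f m H M) m ≤ 2 * C := by
          calc AQ (pri w (w ^ A)) (fun m => TV P f m H M) m ≤
              ∑ p ∈ pri w (w ^ A), (1 / (p : ℝ)) * 2 := by
                refine Finset.sum_le_sum fun p _ => ?_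
                exact mul_le_mul_of_nonneg_left (hTVle P hP f (m * p) H M hM) (by positivity)
            _ = (∑ p ∈ pri w (w ^ A), (1 / (p : ℝ))) * 2 := by rw [Finset.sum_mul]
            _ ≤ 2 * C := by linarith
        have h2 : 2 * C ≤ (2 * C / δ₁) * TV P f m H₁ M₁ := by
          have h3 : (2 * C / δ₁) * δ₁ = 2 * C := by field_simp
          calc 2 * C = (2 * C / δ₁) * δ₁ := h3.symm
            _ ≤ (2 * C / δ₁) * TV P f m H₁ M₁ :=
              mul_le_mul_of_nonneg_left hcase.le (by positivity)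
        have h4 : 0 ≤ C * TV P f m H M := mul_nonneg hC0.le (hTV0 _ _ _)
        have h5 : 0 ≤ 2 * C * t + 2 * k / w := by positivity
        linarith
    refine (CH_it_mono (pri w (w ^ A)) k _ _ hmain).trans ?_
    rw [CH_it_add (pri w (w ^ A)) k (fun m => C * TV P f m H M + (2 * C * t + 2 * k / w))
      (fun m => (2 * C / δ₁) * TV P f m H₁ M₁)]
    simp only
    rw [CH_it_add (pri w (w ^ A)) k (fun m => C * TV P f m H M) (fun _ => 2 * C * t + 2 * k / w),
      CH_it_smul, CH_it_smul]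
    simp only
    have e1 := hw₂ w hw2
    have e2 := hw₃ w hw3
    have e3 := CH_it_const (pri w (w ^ A)) hC0.le hS k (2 * C * t + 2 * k / w) (by positivity) 1
    have f1 : C * (AQ (pri w (w ^ A)))^[k] (fun m => TV P f m H M) 1 ≤ δ / 4 := by
      calc _ ≤ C * (δ / (4 * C)) := mul_le_mul_of_nonneg_left e1 hC0.le
        _ = δ / 4 := by field_simp
    have f2 : (2 * C / δ₁) * (AQ (pri w (w ^ A)))^[k] (fun m => TV P f m H₁ M₁) 1 ≤ δ / 4 := by
      calc _ ≤ (2 * C / δ₁) * (δ * δ₁ / (8 * C)) := mul_le_mul_of_nonneg_left e2 (by positivity)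
        _ = δ / 4 := by field_simp; norm_num
    have f3 : (2 * C * t + 2 * k / w) * C ^ k ≤ δ / 4 + δ / 4 := by
      have hwr : (0 : ℝ) < w := by exact_mod_cast (by omega : 0 < w)
      have g1 : 2 * C * t * C ^ k = δ / 4 := by
        rw [ht]
        field_simp
        ring
      have g2 : 2 * k / w * C ^ k ≤ δ / 4 := by
        have g3 : 8 * k * C ^ k / δ ≤ w := by
          refine hw₄.le.trans ?_
          exact_mod_cast hw4
        rw [div_le_iff₀ hδ] at g3
        rw [div_mul_eq_mul_div, div_le_iff₀ hwr]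
        linarith
      rw [add_mul]
      linarith
    linarith

end Pool.Agent.Helper18.ED
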