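import Pool.Agent.Helper18.ED.St

/-! # Module EB: basic properties of the entropy -/

namespace Pool.Agent.Helper18.ED

open Finset

theorem pf_EntSum (hE : StEmpty) : StEntSum := by
  intro P hP S X T hT
  unfold ent
  apply finsum_eq_sum_of_support_subset
  intro s hs
  by_contra hsT
  apply hs
  have h0 : {n | X n = s} = (∅ : Set ℕ) := by
    ext n
    simp only [Set.mem_ofPred_eq, Set.mem_empty_iff_false, iff_false]
    intro h
    exact hsT (by rw [← h]; exact hT n)
  simp only
  rw [h0, hE P hP, Real.negMulLog_zero]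

/-- the entropy as a sum over representatives -/
theorem EB_ent_rep (hE : StEmpty) {P : Set ℕ → ℝ} (hP : LogProb P) {S : Type} (X : ℕ → S)
    (N : Finset ℕ) (hinj : ∀ k ∈ N, ∀ k' ∈ N, X k = X k' → k = k')
    (hsurj : ∀ n, ∃ k ∈ N, X n = X k) :
    ent P X = ∑ k ∈ N, Real.negMulLog (P {n | X n = X k}) := by
  classical
  rw [pf_EntSum hE P hP X (N.image X) (fun n => by
    obtain ⟨k, hk, h⟩ := hsurj n
    rw [h]
    exact Finset.mem_image_of_mem X hk)]
  rw [Finset.sum_image]
  intro k hk k' hk' h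
  exact hinj k hk k' hk' h

theorem pf_EntCongr (hE : StEmpty) : StEntCongr := by
  classical
  intro P hP S S' X Y hX hXY
  have hfin : (Set.range X).Finite := hX
  have hrep : ∀ s : S, ∃ k : ℕ, s ∈ Set.range X → X k = s := by
    intro s
    by_cases hs : s ∈ Set.range X
    · obtain ⟨k, hk⟩ := hs
      exact ⟨k, fun _ => hk⟩
    · exact ⟨0, fun h => absurd h hs⟩
  choose rep hrep using hrep
  set N : Finset ℕ := hfin.toFinset.image rep with hN
  have hmem : ∀ k ∈ N, ∃ n, k = rep (X n) := by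
    intro k hk
    rw [hN, Finset.mem_image] at hk
    obtain ⟨s, hs, rfl⟩ := hk
    rw [Set.Finite.mem_toFinset] at hs
    obtain ⟨n, rfl⟩ := hs
    exact ⟨n, rfl⟩
  have hX1 : ∀ n, X (rep (X n)) = X n := fun n => hrep _ ⟨n, rfl⟩
  have hinjX : ∀ k ∈ N, ∀ k' ∈ N, X k = X k' → k = k' := by
    intro k hk k' hk' h
    obtain ⟨n, rfl⟩ := hmem k hk
    obtain ⟨n', rfl⟩ := hmem k' hk'
    rw [hX1, hX1] at h
    rw [h]
  have hsurjX : ∀ n, ∃ k ∈ N, X n = X k := by
    intro n
    refine ⟨rep (X n), ?_, (hX1 n).symm⟩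
    rw [hN, Finset.mem_image]
    exact ⟨X n, by rw [Set.Finite.mem_toFinset]; exact ⟨n, rfl⟩, rfl⟩
  have hinjY : ∀ k ∈ N, ∀ k' ∈ N, Y k = Y k' → k = k' :=
    fun k hk k' hk' h => hinjX k hk k' hk' ((hXY k k').2 h)
  have hsurjY : ∀ n, ∃ k ∈ N, Y n = Y k := by
    intro n
    obtain ⟨k, hk, h⟩ := hsurjX n
    exact ⟨k, hk, (hXY n k).1 h⟩
  rw [EB_ent_rep hE hP X N hinjX hsurjX, EB_ent_rep hE hP Y N hinjY hsurjY]
  refine Finset.sum_congr rfl fun k _ => ?_
  have : {n | X n = X k} = {n | Y n = Y k} := by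
    ext n
    exact hXY n k
  rw [this]

theorem pf_EntShift (hS : StShift) : StEntShift := by
  intro P hP S X k
  unfold ent
  refine finsum_congr fun s => ?_
  have := hS P hP k {n | X n = s}
  simp only [Set.mem_ofPred_eq] at this
  rw [this]

theorem pf_EntMod (hE : StEmpty) (hM : StMod) : StEntMod := by
  intro P hP M hM1
  rw [pf_EntSum hE P hP (fun n => n % M) (Finset.range M)
    (fun n => Finset.mem_range.2 (Nat.mod_lt n (by omega)))]
  have h1 : ∀ r ∈ Finset.range M, Real.negMulLog (P {n | n % M = r}) =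
      Real.negMulLog (1 / (M : ℝ)) := by
    intro r hr
    rw [hM P hP M r (Finset.mem_range.1 hr)]
  rw [Finset.sum_congr rfl h1, Finset.sum_const, Finset.card_range, nsmul_eq_mul]
  have hM0 : (M : ℝ) ≠ 0 := by
    have : M ≠ 0 := by omega
    exact_mod_cast this
  unfold Real.negMulLog
  rw [one_div, Real.log_inv]
  field_simp

end Pool.Agent.Helper18.ED
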