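import Pool.Agent.Helper18.ED.St

/-! # Module EC: entropies of close laws -/

namespace Pool.Agent.Helper18.ED

open Finset

lemma ec_range (f : ℕ → ℤˣ) (m H M : ℕ) (hM : 1 ≤ M) :
    ∀ n, (W f m H n, n % M) ∈ (univ : Finset (Fin H → ℤˣ)) ×ˢ range M := fun n =>
  mem_product.mpr ⟨mem_univ _, mem_range.mpr (Nat.mod_lt _ (by omega))⟩

theorem pf_Close (hE : StEntSum) (hC : StEntCongr) (hct : StCont) (hMono : StMono) :
    StClose := by
  intro P hPl f H M hM ε hε
  obtain ⟨δ, hδ, hδ'⟩ := hct ((Fin H → ℤˣ) × ℕ)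
    ((univ : Finset (Fin H → ℤˣ)) ×ˢ range M) ε hε
  refine ⟨δ, hδ, ?_⟩
  intro m hm hmM hTV
  have h01 : ∀ A : Set ℕ, 0 ≤ P A ∧ P A ≤ 1 := fun A =>
    ⟨hPl.nonneg A, by rw [← hPl.univ]; exact hMono P hPl A _ (Set.subset_univ _)⟩
  have e1 : ent P (fun n => (W f m H n, n % M)) =
      ∑ s ∈ (univ : Finset (Fin H → ℤˣ)) ×ˢ range M,
        Real.negMulLog (P {n | (W f m H n, n % M) = s}) :=
    hE P hPl _ _ (ec_range f m H M hM)
  have hFR : FR (fun n => (W f 1 H n, n % M)) := by
    refine Set.Finite.subset (((univ : Finset (Fin H → ℤˣ)) ×ˢ range M).finite_toSet) ?_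
    rintro _ ⟨n, rfl⟩
    exact ec_range f 1 H M hM n
  have e2 : ent P (fun n => (W f 1 H n, n % M)) =
      ent P (fun n => ((fun j => f m * W f 1 H n j : Fin H → ℤˣ), (m * n) % M)) := by
    refine hC P hPl _ _ hFR ?_
    intro n n'
    rw [Prod.ext_iff, Prod.ext_iff]
    refine and_congr ?_ ?_
    · show W f 1 H n = W f 1 H n' ↔ (fun j => f m * W f 1 H n j) = (fun j => f m * W f 1 H n' j)
      constructor
      · intro h
        rw [h]
      · intro h
        funext j
        have := congrFun h j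
        exact mul_left_cancel this
    · show n % M = n' % M ↔ (m * n) % M = (m * n') % M
      constructor
      · intro h
        exact Nat.ModEq.mul_left m h
      · intro h
        exact Nat.ModEq.cancel_left_of_coprime (by rw [Nat.gcd_comm]; exact hmM) h
  have e3 : ent P (fun n => ((fun j => f m * W f 1 H n j : Fin H → ℤˣ), (m * n) % M)) =
      ∑ s ∈ (univ : Finset (Fin H → ℤˣ)) ×ˢ range M,
        Real.negMulLog (P {n | ((fun j => f m * W f 1 H n j : Fin H → ℤˣ), (m * n) % M) = s}) := by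
    refine hE P hPl _ _ ?_
    intro n
    exact mem_product.mpr ⟨mem_univ _, mem_range.mpr (Nat.mod_lt _ (by omega))⟩
  have hsum : ∑ s ∈ (univ : Finset (Fin H → ℤˣ)) ×ˢ range M,
      |P {n | (W f m H n, n % M) = s} -
        P {n | ((fun j => f m * W f 1 H n j : Fin H → ℤˣ), (m * n) % M) = s}| ≤ δ := by
    refine le_trans (le_of_eq ?_) hTV
    rw [sum_product, TV]
    refine sum_congr rfl fun x _ => sum_congr rfl fun r _ => ?_
    have a1 : {n | (W f m H n, n % M) = (x, r)} = {n | W f m H n = x ∧ n % M = r} := by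
      ext n
      exact Prod.ext_iff
    have a2 : {n | ((fun j => f m * W f 1 H n j : Fin H → ℤˣ), (m * n) % M) = (x, r)} =
        {n | (fun j => f m * W f 1 H n j) = x ∧ (m * n) % M = r} := by
      ext n
      exact Prod.ext_iff
    rw [a1, a2]
  have key := hδ' (fun s => P {n | (W f m H n, n % M) = s})
    (fun s => P {n | ((fun j => f m * W f 1 H n j : Fin H → ℤˣ), (m * n) % M) = s})
    (fun s _ => h01 _) (fun s _ => h01 _) hsum
  rw [← e1, ← e3, ← e2] at key
  have := (abs_le.mp key).2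
  rw [cE, cE]
  linarith

end Pool.Agent.Helper18.ED
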