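import Pool.Agent.Helper18.ED.St

set_option autoImplicit false

/-! # Module LR: the law recursion -/

namespace Pool.Agent.Helper18.ED

open Finset

theorem LR_pair (hPart : StPart) {P : Set ℕ → ℝ} (hP : LogProb P) {S S' : Type} [DecidableEq S]
    [DecidableEq S'] (X : ℕ → S)
    (Y : ℕ → S') (T : Finset S) (T' : Finset S') (hX : ∀ n, X n ∈ T) (hY : ∀ n, Y n ∈ T') :
    ∑ x ∈ T, ∑ y ∈ T', P {n | X n = x ∧ Y n = y} = 1 := by
  have h := hPart P hP (fun n => (X n, Y n)) (T ×ˢ T')
    (fun n => Finset.mem_product.2 ⟨hX n, hY n⟩) Set.univ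
  rw [hP.univ, Finset.sum_product] at h
  rw [← h]
  refine Finset.sum_congr rfl fun x _ => Finset.sum_congr rfl fun y _ => ?_
  congr 1
  ext n
  simp [Prod.ext_iff]

theorem pf_TVle (hPart : StPart) : StTVle := by
  intro P hP f m H M hM
  have h1 := LR_pair hPart hP (W f m H) (fun n => n % M) Finset.univ (Finset.range M)
    (fun n => Finset.mem_univ _) (fun n => Finset.mem_range.2 (Nat.mod_lt _ hM))
  have h2 := LR_pair hPart hP (fun n => (fun j => f m * W f 1 H n j)) (fun n => (m * n) % M)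
    Finset.univ (Finset.range M)
    (fun n => Finset.mem_univ _) (fun n => Finset.mem_range.2 (Nat.mod_lt _ hM))
  have h3 : TV P f m H M ≤ ∑ x : Fin H → ℤˣ, ∑ r ∈ Finset.range M,
      (P {n | W f m H n = x ∧ n % M = r} +
        P {n | (fun j => f m * W f 1 H n j) = x ∧ (m * n) % M = r}) := by
    refine Finset.sum_le_sum fun x _ => Finset.sum_le_sum fun r _ => ?_
    have ha := hP.nonneg {n | W f m H n = x ∧ n % M = r}
    have hb := hP.nonneg {n | (fun j => f m * W f 1 H n j) = x ∧ (m * n) % M = r}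
    rw [abs_le]
    constructor <;> linarith
  refine h3.trans (le_of_eq ?_)
  simp only [Finset.sum_add_distrib]
  rw [h1, h2]
  norm_num

theorem LR_one {f : ℕ → ℤˣ} (hf : CM f) : f 1 = 1 := by
  have h := hf 1 1 le_rfl le_rfl
  rw [mul_one] at h
  exact (mul_eq_left.1 h.symm)

theorem pf_TVone : StTVone := by
  intro P hP f hf H M
  unfold TV
  refine Finset.sum_eq_zero fun x _ => Finset.sum_eq_zero fun r _ => ?_
  rw [abs_eq_zero, sub_eq_zero]
  congr 1
  ext n
  simp [LR_one hf]

/-- the index `j` with `p ∣ y + m j` -/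
theorem LR_exists {m p : ℕ} (hp : p.Prime) (hmp : Nat.Coprime m p) (y : ℕ) :
    ∃ j, j < p ∧ p ∣ y + m * j := by
  have : Fact p.Prime := ⟨hp⟩
  refine ⟨(-(y : ZMod p) * (m : ZMod p)⁻¹).val, ZMod.val_lt _, ?_⟩
  rw [← ZMod.natCast_eq_zero_iff]
  push_cast
  rw [ZMod.natCast_val, ZMod.cast_id']
  have hm : (m : ZMod p) ≠ 0 := by
    intro h
    rw [ZMod.natCast_eq_zero_iff] at h
    have h1 := Nat.dvd_gcd h (dvd_refl p)
    rw [hmp] at h1
    exact hp.one_lt.ne' (Nat.dvd_one.1 h1)
  simp only [id]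
  field_simp
  ring

theorem LR_cover {p H j i : ℕ} (hj : j < p) (hi : i < H) : j + p * i < H * p := by
  have h1 : i + 1 ≤ H := hi
  calc j + p * i < p + p * i := by omega
    _ = p * (i + 1) := by ring
    _ ≤ p * H := Nat.mul_le_mul_left _ h1
    _ = H * p := by ring

/-- abstract comparison of image laws -/
theorem LR_image {A B S : Type} [DecidableEq S] (T : Finset A) (T' : Finset B) (TS : Finset S)
    (Φ : A → B → S) (a b : A → B → ℝ) :
    ∑ s ∈ TS, |(∑ z ∈ T, ∑ y ∈ T', if Φ z y = s then a z y else 0) -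
      ∑ z ∈ T, ∑ y ∈ T', if Φ z y = s then b z y else 0| ≤
    ∑ z ∈ T, ∑ y ∈ T', |a z y - b z y| := by
  have h1 : ∀ s ∈ TS, |(∑ z ∈ T, ∑ y ∈ T', if Φ z y = s then a z y else 0) -
      ∑ z ∈ T, ∑ y ∈ T', if Φ z y = s then b z y else 0| ≤
      ∑ z ∈ T, ∑ y ∈ T', if Φ z y = s then |a z y - b z y| else 0 := by
    intro s _
    rw [← Finset.sum_sub_distrib]
    refine (Finset.abs_sum_le_sum_abs _ _).trans (Finset.sum_le_sum fun z _ => ?_)
    rw [← Finset.sum_sub_distrib]
    refine (Finset.abs_sum_le_sum_abs _ _).trans (Finset.sum_le_sum fun y _ => ?_)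
    split_ifs <;> simp
  refine (Finset.sum_le_sum h1).trans ?_
  rw [Finset.sum_comm]
  refine Finset.sum_le_sum fun z _ => ?_
  rw [Finset.sum_comm]
  refine Finset.sum_le_sum fun y _ => ?_
  rw [Finset.sum_ite_eq]
  split_ifs
  · exact le_rfl
  · exact abs_nonneg _

/-- the sum over the values of `Z` -/
theorem LR_fibre (hPart : StPart) {P : Set ℕ → ℝ} (hP : LogProb P) {A S : Type} [DecidableEq S]
    (hEmpty : P ∅ = 0)
    (Z : ℕ → A) (T : Finset A) (hZ : ∀ n, Z n ∈ T) (Φ : A → S) (s : S) (E : Set ℕ) :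
    ∑ z ∈ T, (if Φ z = s then P {n | Z n = z ∧ n ∈ E} else 0) = P {n | Φ (Z n) = s ∧ n ∈ E} := by
  rw [← hPart P hP Z T hZ {n | Φ (Z n) = s ∧ n ∈ E}]
  refine Finset.sum_congr rfl fun z _ => ?_
  split_ifs with h
  · congr 1
    ext n
    simp only [Set.mem_ofPred_eq]
    constructor
    · rintro ⟨h1, h2⟩
      exact ⟨⟨by rw [h1]; exact h, h2⟩, h1⟩
    · rintro ⟨⟨_, h2⟩, h1⟩
      exact ⟨h1, h2⟩
  · have : {n | n ∈ {n | Φ (Z n) = s ∧ n ∈ E} ∧ Z n = z} = ∅ := by
      ext n
      simp only [Set.mem_ofPred_eq, Set.mem_empty_iff_false, iff_false]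
      rintro ⟨⟨h1, _⟩, h2⟩
      exact h (by rw [← h2]; exact h1)
    rw [this, hEmpty]

/-- sums over residues are invariant under multiplication by a unit -/
theorem LR_range {M p : ℕ} (hM : 1 ≤ M) (hMp : Nat.Coprime M p) (g : ℕ → ℝ) :
    ∑ r ∈ Finset.range M, g (p * r % M) = ∑ r ∈ Finset.range M, g r := by
  have hmaps : ∀ r ∈ Finset.range M, p * r % M ∈ Finset.range M := fun r _ =>
    Finset.mem_range.2 (Nat.mod_lt _ hM)
  have hinj : ∀ a ∈ Finset.range M, ∀ b ∈ Finset.range M, p * a % M = p * b % M → a = b := by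
    intro a ha b hb h
    have h1 : a ≡ b [MOD M] := Nat.ModEq.cancel_left_of_coprime hMp h
    have h2 : a % M = b % M := h1
    rwa [Nat.mod_eq_of_lt (Finset.mem_range.1 ha), Nat.mod_eq_of_lt (Finset.mem_range.1 hb)] at h2
  refine Finset.sum_bij (fun r _ => p * r % M) hmaps hinj ?_ (fun r _ => rfl)
  intro b hb
  have h := Finset.surj_on_of_inj_on_of_card_le (s := Finset.range M) (t := Finset.range M)
    (fun r _ => p * r % M) hmaps (fun a b ha hb h => hinj a ha b hb h) le_rfl b hb
  obtain ⟨a, ha, hab⟩ := h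
  exact ⟨a, ha, hab.symm⟩

theorem LR_modmul {M p a b : ℕ} (hMp : Nat.Coprime M p) :
    (p * a % M = p * b % M) ↔ (a % M = b % M) := by
  constructor
  · intro h
    exact Nat.ModEq.cancel_left_of_coprime hMp h
  · intro h
    exact Nat.ModEq.mul_left p h

theorem LR_step1 (hEmpty : StEmpty) (hPart : StPart) (hPos : StPos) (hShift : StShift)
    (hDil : StDil) (hMod : StMod) (hPin : StPinsker) (hMut : StCEmut)
    {P : Set ℕ → ℝ} (hP : LogProb P) {f : ℕ → ℤˣ} (hf : CM f) {m H M p : ℕ}
    (hM : 1 ≤ M) (hm : 1 ≤ m) (hp : p.Prime) (hMp : Nat.Coprime M p) (hmp : Nat.Coprime m p) :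
    ∑ x : Fin H → ℤˣ, ∑ r ∈ Finset.range M, |P {n | W f (m * p) H n = x ∧ n % M = r} -
      P {n | (fun j => f p * W f m H n j) = x ∧ (p * n) % M = r}| ≤
      2 * Real.sqrt (inf P f m H M p) := by
  classical
  choose jj hjj hjd using LR_exists hp hmp
  set Z : ℕ → (Fin (H * p) → ℤˣ) × ℕ := fun n => (W f m (H * p) n, n % M) with hZdef
  set Y : ℕ → ℕ := fun n => n % p with hYdef
  set Φ : (Fin (H * p) → ℤˣ) × ℕ → ℕ → (Fin H → ℤˣ) × ℕ := fun z y =>
    (fun i : Fin H => z.1 ⟨jj y + p * i, LR_cover (hjj y) i.2⟩, (z.2 + m * jj y) % M)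
    with hΦdef
  set G : ℕ → (Fin H → ℤˣ) × ℕ := fun n => (W f (m * p) H n, n % M) with hGdef
  have hΦ : ∀ n y, Φ (Z n) y = G (n + m * jj y) := by
    intro n y
    simp only [hΦdef, hZdef, hGdef, W]
    refine Prod.ext ?_ ?_
    · funext i
      simp only
      congr 1
      ring
    · simp only [Nat.mod_add_mod]
  set T : Finset ((Fin (H * p) → ℤˣ) × ℕ) := Finset.univ ×ˢ Finset.range M
  have hZT : ∀ n, Z n ∈ T := fun n =>
    Finset.mem_product.2 ⟨Finset.mem_univ _, Finset.mem_range.2 (Nat.mod_lt _ hM)⟩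
  have hYT : ∀ n, Y n ∈ Finset.range p := fun n => Finset.mem_range.2 (Nat.mod_lt _ hp.pos)
  have hpin := hPin P hP Z Y T (Finset.range p) hZT hYT
  have hmut := hMut P hP f m (H * p) M p hM hp.one_lt.le hMp
  have hpin2 : ∑ z ∈ T, ∑ y ∈ Finset.range p, |P {n | Z n = z ∧ Y n = y} -
      P {n | Z n = z} * P {n | Y n = y}| ≤ 2 * Real.sqrt (inf P f m H M p) := by
    refine hpin.trans (le_of_eq ?_)
    unfold inf
    rw [← hmut]
  refine le_trans ?_ hpin2
  refine le_trans ?_ (LR_image T (Finset.range p) ((Finset.univ : Finset (Fin H → ℤˣ)) ×ˢ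
    Finset.range M) Φ (fun z y => P {n | Z n = z ∧ Y n = y})
    (fun z y => P {n | Z n = z} * P {n | Y n = y}))
  rw [Finset.sum_product]
  refine le_of_eq (Finset.sum_congr rfl fun x _ => Finset.sum_congr rfl fun r _ => ?_)
  have hp0 : (0 : ℝ) < p := by exact_mod_cast hp.pos
  -- joint law
  have hJ : (∑ z ∈ T, ∑ y ∈ Finset.range p, if Φ z y = (x, r) then P {n | Z n = z ∧ Y n = y}
      else 0) = P {n | (fun j => f p * W f m H n j) = x ∧ (p * n) % M = r} := by
    rw [Finset.sum_comm]
    have h1 : ∀ y ∈ Finset.range p, (∑ z ∈ T, if Φ z y = (x, r) then P {n | Z n = z ∧ Y n = y}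
        else 0) = P {n | (fun j => f p * W f m H n j) = x ∧ (p * n) % M = r} / p := by
      intro y hy
      have h2 := LR_fibre hPart hP (hEmpty P hP) Z T hZT (fun z => Φ z y) (x, r) {n | Y n = y}
      simp only [Set.mem_ofPred_eq] at h2
      rw [h2]
      have h3 : {n | Φ (Z n) y = (x, r) ∧ Y n = y} =
          {n | n + m * jj y ∈ {n | p ∣ n ∧ n ∈ {n | G n = (x, r)}}} := by
        ext n
        simp only [Set.mem_ofPred_eq, hΦ]
        constructor
        · rintro ⟨h4, h5⟩
          refine ⟨?_, h4⟩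
          have h6 := hjd y
          have h7 : n ≡ y [MOD p] := by
            show n % p = y % p
            rw [show n % p = y from h5, Nat.mod_eq_of_lt (Finset.mem_range.1 hy)]
          exact (Nat.ModEq.dvd_iff (h7.add_right _) (dvd_refl p)).2 h6
        · rintro ⟨h4, h5⟩
          refine ⟨h5, ?_⟩
          have h6 := hjd y
          have h7 : n + m * jj y ≡ y + m * jj y [MOD p] :=
            ((Nat.modEq_zero_iff_dvd).2 h4).trans ((Nat.modEq_zero_iff_dvd).2 h6).symm
          have h8 : n ≡ y [MOD p] := Nat.ModEq.add_right_cancel' _ h7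
          show n % p = y
          rw [show n % p = y % p from h8, Nat.mod_eq_of_lt (Finset.mem_range.1 hy)]
      rw [h3, hShift P hP (m * jj y) {n | p ∣ n ∧ n ∈ {n | G n = (x, r)}},
        hDil P hP p hp.one_lt.le {n | G n = (x, r)}]
      congr 1
      apply hPos P hP
      intro n hn
      simp only [Set.mem_ofPred_eq, hGdef, Prod.mk.injEq]
      have h9 : W f (m * p) H (p * n) = fun j => f p * W f m H n j := by
        funext j
        simp only [W]
        rw [show p * n + m * p * (j : ℕ) = p * (n + m * j) by ring]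
        exact hf p (n + m * j) hp.one_lt.le (by omega)
      rw [h9]
    rw [Finset.sum_congr rfl h1, Finset.sum_const, Finset.card_range, nsmul_eq_mul]
    field_simp
  have hK : (∑ z ∈ T, ∑ y ∈ Finset.range p, if Φ z y = (x, r) then
      P {n | Z n = z} * P {n | Y n = y} else 0) = P {n | W f (m * p) H n = x ∧ n % M = r} := by
    rw [Finset.sum_comm]
    have h1 : ∀ y ∈ Finset.range p, (∑ z ∈ T, if Φ z y = (x, r) then
        P {n | Z n = z} * P {n | Y n = y} else 0) =
        P {n | W f (m * p) H n = x ∧ n % M = r} / p := by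
      intro y hy
      have h2 := LR_fibre hPart hP (hEmpty P hP) Z T hZT (fun z => Φ z y) (x, r) Set.univ
      simp only [Set.mem_univ, and_true] at h2
      have h3 : P {n | Y n = y} = 1 / p := hMod P hP p y (Finset.mem_range.1 hy)
      have h4 : (∑ z ∈ T, if Φ z y = (x, r) then P {n | Z n = z} * P {n | Y n = y} else 0) =
          (∑ z ∈ T, if Φ z y = (x, r) then P {n | Z n = z} else 0) * (1 / p) := by
        rw [Finset.sum_mul]
        refine Finset.sum_congr rfl fun z _ => ?_
        rw [h3]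
        split_ifs <;> simp
      rw [h4, h2]
      have h5 : {n | Φ (Z n) y = (x, r)} = {n | n + m * jj y ∈ {n | G n = (x, r)}} := by
        ext n
        simp only [Set.mem_ofPred_eq, hΦ]
      rw [h5, hShift P hP (m * jj y) {n | G n = (x, r)}]
      have h6 : {n | G n = (x, r)} = {n | W f (m * p) H n = x ∧ n % M = r} := by
        ext n
        simp only [Set.mem_ofPred_eq, hGdef, Prod.mk.injEq]
      rw [h6]
      ring
    rw [Finset.sum_congr rfl h1, Finset.sum_const, Finset.card_range, nsmul_eq_mul]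
    field_simp
  rw [hJ, hK, abs_sub_comm]

theorem pf_Law (hEmpty : StEmpty) (hPart : StPart) (hPos : StPos) (hShift : StShift)
    (hDil : StDil) (hMod : StMod) (hPin : StPinsker) (hMut : StCEmut) : StLaw := by
  intro P hP f hf m H M p hM hm hp hMp hmp
  have h1 := LR_step1 hEmpty hPart hPos hShift hDil hMod hPin hMut hP hf (H := H) hM hm hp hMp hmp
  have h2 : ∑ x : Fin H → ℤˣ, ∑ r ∈ Finset.range M,
      |P {n | (fun j => f p * W f m H n j) = x ∧ (p * n) % M = r} -
        P {n | (fun j => f (m * p) * W f 1 H n j) = x ∧ (m * p * n) % M = r}| = TV P f m H M := by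
    unfold TV
    rw [← Equiv.sum_comp (Equiv.mulLeft (fun _ : Fin H => f p))]
    refine Finset.sum_congr rfl fun x _ => ?_
    rw [← LR_range hM hMp]
    refine Finset.sum_congr rfl fun r hr => ?_
    have hrM : r % M = r := Nat.mod_eq_of_lt (Finset.mem_range.1 hr)
    congr 1
    congr 1
    · congr 1
      ext n
      simp only [Set.mem_ofPred_eq, Equiv.coe_mulLeft]
      rw [LR_modmul hMp, hrM]
      refine and_congr ?_ Iff.rfl
      constructor
      · intro h
        funext j
        have := congrFun h j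
        simpa using this
      · intro h
        rw [h]
        rfl
    · congr 1
      ext n
      simp only [Set.mem_ofPred_eq, Equiv.coe_mulLeft]
      rw [show m * p * n = p * (m * n) by ring, LR_modmul hMp, hrM, hf m p hm hp.one_lt.le]
      refine and_congr ?_ Iff.rfl
      constructor
      · intro h
        funext j
        have := congrFun h j
        simp only [Pi.mul_apply] at this
        rw [mul_comm (f m) (f p), mul_assoc] at this
        exact mul_left_cancel this
      · intro h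
        funext j
        have := congrFun h j
        simp only [Pi.mul_apply]
        rw [← this, mul_comm (f m) (f p), mul_assoc]
  have h3 : TV P f (m * p) H M ≤ (∑ x : Fin H → ℤˣ, ∑ r ∈ Finset.range M,
      |P {n | W f (m * p) H n = x ∧ n % M = r} -
      P {n | (fun j => f p * W f m H n j) = x ∧ (p * n) % M = r}|) +
      ∑ x : Fin H → ℤˣ, ∑ r ∈ Finset.range M,
      |P {n | (fun j => f p * W f m H n j) = x ∧ (p * n) % M = r} -
        P {n | (fun j => f (m * p) * W f 1 H n j) = x ∧ (m * p * n) % M = r}| := by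
    rw [← Finset.sum_add_distrib]
    refine Finset.sum_le_sum fun x _ => ?_
    rw [← Finset.sum_add_distrib]
    refine Finset.sum_le_sum fun r _ => ?_
    exact abs_sub_le _ _ _
  rw [h2] at h3
  linarith

end Pool.Agent.Helper18.ED
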