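import Pool.Agent.Helper18.ED.St

/-! # Module PB: basic properties of `P` -/

namespace Pool.Agent.Helper18.ED

open Finset

theorem pf_Empty : StEmpty := by
  intro P hP
  have h := hP.union ∅ ∅ (Set.disjoint_empty ∅)
  rw [Set.union_empty] at h
  linarith

theorem pf_Mono : StMono := by
  intro P hP A B hAB
  have h := hP.union A (B \ A) Set.disjoint_sdiff_right
  rw [Set.union_sdiff_cancel hAB] at h
  have := hP.nonneg (B \ A)
  linarith

theorem pf_Part : StPart := by
  classical
  intro P hP S X T hT A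
  have key : ∀ T' : Finset S, ∑ s ∈ T', P {n | n ∈ A ∧ X n = s} = P {n | n ∈ A ∧ X n ∈ T'} := by
    intro T'
    induction T' using Finset.induction_on with
    | empty =>
      rw [Finset.sum_empty]
      have : {n | n ∈ A ∧ X n ∈ (∅ : Finset S)} = ∅ := by
        ext n; simp
      rw [this, pf_Empty P hP]
    | insert a s ha ih =>
      rw [Finset.sum_insert ha, ih, ← hP.union]
      · congr 1
        ext n
        simp only [Set.mem_union, Set.mem_ofPred_eq, Finset.mem_insert]
        tauto
      · rw [Set.disjoint_left]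
        rintro n ⟨-, h1⟩ ⟨-, h2⟩
        rw [h1] at h2
        exact ha h2
  rw [key T]
  congr 1
  ext n
  exact ⟨fun h => h.1, fun h => ⟨h, hT n⟩⟩

theorem P_zero (P : Set ℕ → ℝ) (hP : LogProb P) : P {0} = 0 := by
  rw [← hP.shift {0}]
  have : {n : ℕ | n + 1 ∈ ({0} : Set ℕ)} = ∅ := by
    ext n; simp
  rw [this, pf_Empty P hP]

theorem pf_Pos : StPos := by
  intro P hP A B h
  have key : ∀ A : Set ℕ, P (A \ {0}) = P A := by
    intro A
    have h1 := hP.union (A \ {0}) (A ∩ {0}) (by
      rw [Set.disjoint_left]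
      rintro n ⟨-, h1⟩ ⟨-, h2⟩
      exact h1 h2)
    rw [Set.sdiff_union_inter] at h1
    have h2 := pf_Mono P hP (A ∩ {0}) {0} Set.inter_subset_right
    have h3 := hP.nonneg (A ∩ {0})
    rw [P_zero P hP] at h2
    linarith
  rw [← key A, ← key B]
  congr 1
  ext n
  simp only [Set.mem_sdiff, Set.mem_singleton_iff]
  constructor
  · rintro ⟨h1, h2⟩
    exact ⟨(h n (by omega)).1 h1, h2⟩
  · rintro ⟨h1, h2⟩
    exact ⟨(h n (by omega)).2 h1, h2⟩

theorem pf_Shift : StShift := by
  intro P hP k
  induction k with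
  | zero => intro A; rfl
  | succ k ih =>
    intro A
    have h1 := ih {n | n + 1 ∈ A}
    rw [hP.shift A] at h1
    exact h1

theorem pf_Dil : StDil := by
  intro P hP d hd A
  rw [← hP.dil d hd]
  congr 1
  ext n
  simp only [Set.mem_ofPred_eq]
  refine and_congr_right fun h => ?_
  rw [Nat.mul_div_cancel' h]

theorem pf_Mod : StMod := by
  intro P hP M r hr
  have h1 := pf_Shift P hP (M - r) {n | M ∣ n}
  have h2 := hP.dil M (by omega) Set.univ
  rw [hP.univ] at h2
  have e1 : {n : ℕ | n + (M - r) ∈ {n | M ∣ n}} = {n | n % M = r} := by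
    ext n
    simp only [Set.mem_ofPred_eq]
    constructor
    · intro h
      obtain ⟨k, hk⟩ := h
      have hk1 : 1 ≤ k := by
        by_contra hcon
        have : k = 0 := by omega
        subst this
        omega
      obtain ⟨j, rfl⟩ : ∃ j, k = j + 1 := ⟨k - 1, by omega⟩
      have : n = r + M * j := by
        rw [Nat.mul_succ] at hk
        omega
      rw [this, Nat.add_mul_mod_self_left, Nat.mod_eq_of_lt hr]
    · intro h
      refine ⟨n / M + 1, ?_⟩
      have := Nat.div_add_mod n M
      rw [Nat.mul_succ]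
      omega
  have e2 : {n : ℕ | M ∣ n ∧ n / M ∈ (Set.univ : Set ℕ)} = {n | M ∣ n} := by
    ext n; simp
  rw [e1] at h1
  rw [e2] at h2
  rw [h1, h2]

end Pool.Agent.Helper18.ED
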