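import Pool.Agent.Helper18.ED.St

/-! # Module PK: a Pinsker type inequality -/

namespace Pool.Agent.Helper18.ED

open Finset

/-- the inequality for one cell -/
lemma pk_cell (a b c : ℝ) (ha : 0 ≤ a) (hb : a ≤ b) (hc : a ≤ c) :
    (Real.sqrt a - Real.sqrt (b * c)) ^ 2 + a - b * c ≤
      a * (Real.log a - Real.log b - Real.log c) := by
  have hb0 : 0 ≤ b := ha.trans hb
  have hc0 : 0 ≤ c := ha.trans hc
  have hq0 : 0 ≤ b * c := mul_nonneg hb0 hc0
  have e1 : (Real.sqrt a - Real.sqrt (b * c)) ^ 2 + a - b * c =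
      2 * a - 2 * (Real.sqrt a * Real.sqrt (b * c)) := by
    have h1 := Real.sq_sqrt ha
    have h2 := Real.sq_sqrt hq0
    nlinarith
  rw [e1]
  rcases ha.eq_or_lt with h | h
  · rw [← h]
    simp
  have hbp : 0 < b := h.trans_le hb
  have hcp : 0 < c := h.trans_le hc
  have hq : 0 < b * c := mul_pos hbp hcp
  have hsa : 0 < Real.sqrt a := Real.sqrt_pos.mpr h
  have hsq : 0 < Real.sqrt (b * c) := Real.sqrt_pos.mpr hq
  have hl : Real.log (Real.sqrt (b * c) / Real.sqrt a) ≤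
      Real.sqrt (b * c) / Real.sqrt a - 1 :=
    Real.log_le_sub_one_of_pos (div_pos hsq hsa)
  rw [Real.log_div hsq.ne' hsa.ne', Real.log_sqrt hq.le, Real.log_sqrt h.le,
    Real.log_mul hbp.ne' hcp.ne'] at hl
  have h3 : a * (Real.sqrt (b * c) / Real.sqrt a) = Real.sqrt a * Real.sqrt (b * c) := by
    have h2 := Real.mul_self_sqrt ha
    field_simp
    nlinarith
  have h4 := mul_le_mul_of_nonneg_left hl (by positivity : (0 : ℝ) ≤ 2 * a)
  have h5 : 2 * a * (Real.sqrt (b * c) / Real.sqrt a - 1) =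
      2 * (Real.sqrt a * Real.sqrt (b * c)) - 2 * a := by
    rw [← h3]; ring
  rw [h5] at h4
  nlinarith

theorem pf_Pinsker (hE : StEntSum) (hP : StPart) (hM : StMono) : StPinsker := by
  intro P hPl S S' X Y T T' hX hY
  classical
  set a : S → S' → ℝ := fun s t => P {n | X n = s ∧ Y n = t} with ha
  set b : S → ℝ := fun s => P {n | X n = s} with hb
  set c : S' → ℝ := fun t => P {n | Y n = t} with hc
  have a0 : ∀ s t, 0 ≤ a s t := fun s t => hPl.nonneg _
  have b0 : ∀ s, 0 ≤ b s := fun s => hPl.nonneg _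
  have c0 : ∀ t, 0 ≤ c t := fun t => hPl.nonneg _
  have ab : ∀ s t, a s t ≤ b s := fun s t => hM P hPl _ _ (fun n hn => hn.1)
  have ac : ∀ s t, a s t ≤ c t := fun s t => hM P hPl _ _ (fun n hn => hn.2)
  have sat : ∀ s, ∑ t ∈ T', a s t = b s := fun s => hP P hPl Y T' hY {n | X n = s}
  have sas : ∀ t, ∑ s ∈ T, a s t = c t := by
    intro t
    have := hP P hPl X T hX {n | Y n = t}
    rw [← show P {n | Y n = t} = c t from rfl, ← this]
    refine sum_congr rfl fun s _ => ?_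
    show P {n | X n = s ∧ Y n = t} = P {n | n ∈ {n | Y n = t} ∧ X n = s}
    congr 1
    ext n
    exact and_comm
  have sb : ∑ s ∈ T, b s = 1 := by
    have := hP P hPl X T hX Set.univ
    rw [hPl.univ] at this
    rw [← this]
    refine sum_congr rfl fun s _ => ?_
    show P {n | X n = s} = P {n | n ∈ Set.univ ∧ X n = s}
    congr 1
    ext n
    exact ⟨fun h => ⟨trivial, h⟩, fun h => h.2⟩
  have sc : ∑ t ∈ T', c t = 1 := by
    have := hP P hPl Y T' hY Set.univ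
    rw [hPl.univ] at this
    rw [← this]
    refine sum_congr rfl fun s _ => ?_
    show P {n | Y n = s} = P {n | n ∈ Set.univ ∧ Y n = s}
    congr 1
    ext n
    exact ⟨fun h => ⟨trivial, h⟩, fun h => h.2⟩
  have sa : ∑ z ∈ T ×ˢ T', a z.1 z.2 = 1 := by
    rw [sum_product]
    simp only [sat, sb]
  have sq : ∑ z ∈ T ×ˢ T', b z.1 * c z.2 = 1 := by
    rw [sum_product]
    simp only [← mul_sum, sc, mul_one, sb]
  have eX : ent P X = ∑ z ∈ T ×ˢ T', -(a z.1 z.2 * Real.log (b z.1)) := by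
    rw [hE P hPl X T hX, sum_product]
    refine sum_congr rfl fun s _ => ?_
    show Real.negMulLog (b s) = ∑ t ∈ T', -(a s t * Real.log (b s))
    rw [sum_neg_distrib, ← sum_mul, sat, Real.negMulLog]
    ring
  have eY : ent P Y = ∑ z ∈ T ×ˢ T', -(a z.1 z.2 * Real.log (c z.2)) := by
    rw [hE P hPl Y T' hY, sum_product_right]
    refine sum_congr rfl fun t _ => ?_
    show Real.negMulLog (c t) = ∑ s ∈ T, -(a s t * Real.log (c t))
    rw [sum_neg_distrib, ← sum_mul, sas, Real.negMulLog]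
    ring
  have eXY : ent P (fun n => (X n, Y n)) =
      ∑ z ∈ T ×ˢ T', -(a z.1 z.2 * Real.log (a z.1 z.2)) := by
    rw [hE P hPl (fun n => (X n, Y n)) (T ×ˢ T')
      (fun n => mem_product.mpr ⟨hX n, hY n⟩)]
    refine sum_congr rfl fun z _ => ?_
    have : {n | (X n, Y n) = z} = {n | X n = z.1 ∧ Y n = z.2} := by
      ext n
      exact Prod.ext_iff
    rw [this, Real.negMulLog]
    show -a z.1 z.2 * Real.log (a z.1 z.2) = _
    ring
  set K : ℝ := ent P X + ent P Y - ent P (fun n => (X n, Y n)) with hK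
  have hKs : ∑ z ∈ T ×ˢ T', (Real.sqrt (a z.1 z.2) - Real.sqrt (b z.1 * c z.2)) ^ 2 ≤ K := by
    have h1 : K = ∑ z ∈ T ×ˢ T', a z.1 z.2 *
        (Real.log (a z.1 z.2) - Real.log (b z.1) - Real.log (c z.2)) := by
      rw [hK, eX, eY, eXY, ← sum_add_distrib, ← sum_sub_distrib]
      refine sum_congr rfl fun z _ => ?_
      ring
    rw [h1]
    have h2 : ∑ z ∈ T ×ˢ T', (Real.sqrt (a z.1 z.2) - Real.sqrt (b z.1 * c z.2)) ^ 2 =
        ∑ z ∈ T ×ˢ T', ((Real.sqrt (a z.1 z.2) - Real.sqrt (b z.1 * c z.2)) ^ 2 +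
          a z.1 z.2 - b z.1 * c z.2) := by
      rw [sum_sub_distrib, sum_add_distrib, sa, sq]
      ring
    rw [h2]
    exact sum_le_sum fun z _ => pk_cell _ _ _ (a0 _ _) (ab _ _) (ac _ _)
  have h4 : ∑ z ∈ T ×ˢ T', (Real.sqrt (a z.1 z.2) + Real.sqrt (b z.1 * c z.2)) ^ 2 ≤ 4 := by
    have h5 : ∑ z ∈ T ×ˢ T', (Real.sqrt (a z.1 z.2) + Real.sqrt (b z.1 * c z.2)) ^ 2 ≤
        ∑ z ∈ T ×ˢ T', (2 * a z.1 z.2 + 2 * (b z.1 * c z.2)) := by
      refine sum_le_sum fun z _ => ?_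
      have e1 := Real.sq_sqrt (a0 z.1 z.2)
      have e2 := Real.sq_sqrt (mul_nonneg (b0 z.1) (c0 z.2))
      nlinarith [sq_nonneg (Real.sqrt (a z.1 z.2) - Real.sqrt (b z.1 * c z.2))]
    rw [sum_add_distrib, ← mul_sum, ← mul_sum, sa, sq] at h5
    linarith
  have hsum : ∑ s ∈ T, ∑ t ∈ T', |a s t - b s * c t| =
      ∑ z ∈ T ×ˢ T', |Real.sqrt (a z.1 z.2) - Real.sqrt (b z.1 * c z.2)| *
        (Real.sqrt (a z.1 z.2) + Real.sqrt (b z.1 * c z.2)) := by
    rw [sum_product]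
    refine sum_congr rfl fun s _ => sum_congr rfl fun t _ => ?_
    show _ = |Real.sqrt (a s t) - Real.sqrt (b s * c t)| *
        (Real.sqrt (a s t) + Real.sqrt (b s * c t))
    have e1 := Real.mul_self_sqrt (a0 s t)
    have e2 := Real.mul_self_sqrt (mul_nonneg (b0 s) (c0 t))
    have e3 : (0 : ℝ) ≤ Real.sqrt (a s t) + Real.sqrt (b s * c t) := by positivity
    have e4 : |Real.sqrt (a s t) - Real.sqrt (b s * c t)| *
        (Real.sqrt (a s t) + Real.sqrt (b s * c t)) =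
        |Real.sqrt (a s t) - Real.sqrt (b s * c t)| *
        |Real.sqrt (a s t) + Real.sqrt (b s * c t)| := by rw [abs_of_nonneg e3]
    rw [e4, ← abs_mul]
    congr 1
    nlinarith
  show ∑ s ∈ T, ∑ t ∈ T', |a s t - b s * c t| ≤ 2 * Real.sqrt K
  rw [hsum]
  have hCS := sum_mul_sq_le_sq_mul_sq (T ×ˢ T')
    (fun z => |Real.sqrt (a z.1 z.2) - Real.sqrt (b z.1 * c z.2)|)
    (fun z => Real.sqrt (a z.1 z.2) + Real.sqrt (b z.1 * c z.2))
  simp only [sq_abs] at hCS
  have hK0 : 0 ≤ K := (sum_nonneg fun z _ => sq_nonneg _).trans hKs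
  refine abs_le_of_sq_le_sq' ?_ (by positivity) |>.2
  rw [mul_pow, Real.sq_sqrt hK0]
  refine hCS.trans ?_
  have h6 := mul_le_mul hKs h4 (sum_nonneg fun z _ => sq_nonneg _) hK0
  linarith

end Pool.Agent.Helper18.ED
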