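import Pool.Agent.Helper18.ED.St

/-! Module RO: rough numbers and chains of primes. -/

namespace Pool.Agent.Helper18.ED

open Finset

namespace RO

lemma AQ_nonneg (Q : Finset ℕ) (φ : ℕ → ℝ) (hφ : ∀ m, 0 ≤ φ m) : ∀ (k m : ℕ),
    0 ≤ (AQ Q)^[k] φ m
  | 0, m => hφ m
  | k + 1, m => by
    rw [Function.iterate_succ_apply']
    unfold AQ
    apply Finset.sum_nonneg
    intro p _
    have := AQ_nonneg Q φ hφ k (m * p)
    unfold AQ at this
    positivity

/-- members of `rough w z` with `k` prime factors -/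
def R (w z k : ℕ) : Finset ℕ :=
  (rough w z).filter (fun d => ArithmeticFunction.cardFactors d = k)

lemma chain (w z : ℕ) (φ : ℕ → ℝ) (hφ : ∀ m, 0 ≤ φ m) : ∀ (k m : ℕ),
    ∑ d ∈ R w z k, (1 / (d : ℝ)) * φ (m * d) ≤ (AQ (pri w z))^[k] φ m
  | 0, m => by
    have hsub : R w z 0 ⊆ {1} := by
      intro d hd
      simp only [R, rough, Finset.mem_filter, Finset.mem_Icc] at hd
      rw [ArithmeticFunction.cardFactors_apply] at hd
      have h0 : d.primeFactorsList = [] := List.length_eq_zero_iff.mp hd.2
      rw [Nat.primeFactorsList_eq_nil] at h0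
      rw [Finset.mem_singleton]
      omega
    calc ∑ d ∈ R w z 0, (1 / (d : ℝ)) * φ (m * d)
        ≤ ∑ d ∈ ({1} : Finset ℕ), (1 / (d : ℝ)) * φ (m * d) :=
          Finset.sum_le_sum_of_subset_of_nonneg hsub (fun d _ _ => by
            have := hφ (m * d); positivity)
      _ = φ m := by simp
  | k + 1, m => by
    rw [Function.iterate_succ_apply']
    have h1 : AQ (pri w z) ((AQ (pri w z))^[k] φ) m =
        ∑ p ∈ pri w z, (1 / (p : ℝ)) * ((AQ (pri w z))^[k] φ (m * p)) := rfl
    rw [h1]
    have h2 : ∑ p ∈ pri w z, (1 / (p : ℝ)) *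
        (∑ d ∈ R w z k, (1 / (d : ℝ)) * φ (m * p * d)) ≤
        ∑ p ∈ pri w z, (1 / (p : ℝ)) * ((AQ (pri w z))^[k] φ (m * p)) := by
      apply Finset.sum_le_sum
      intro p _
      exact mul_le_mul_of_nonneg_left (chain w z φ hφ k (m * p)) (by positivity)
    refine le_trans ?_ h2
    have h3 : ∑ p ∈ pri w z, (1 / (p : ℝ)) *
        (∑ d ∈ R w z k, (1 / (d : ℝ)) * φ (m * p * d)) =
        ∑ x ∈ pri w z ×ˢ R w z k, (1 / ((x.1 * x.2 : ℕ) : ℝ)) * φ (m * (x.1 * x.2)) := by
      rw [Finset.sum_product]
      apply Finset.sum_congr rfl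
      intro p _
      rw [Finset.mul_sum]
      apply Finset.sum_congr rfl
      intro d _
      simp only []
      push_cast
      rw [← mul_assoc, mul_assoc m p d]
      congr 1
      rw [one_div_mul_one_div]
    rw [h3]
    have h4 : ∑ d ∈ R w z (k + 1), (1 / (d : ℝ)) * φ (m * d) =
        ∑ x ∈ (R w z (k + 1)).image (fun d => (d.minFac, d / d.minFac)),
          (1 / ((x.1 * x.2 : ℕ) : ℝ)) * φ (m * (x.1 * x.2)) := by
      rw [Finset.sum_image]
      · apply Finset.sum_congr rfl
        intro d _
        simp only []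
        rw [Nat.mul_div_cancel' (Nat.minFac_dvd d)]
      · intro d _ d' _ h
        simp only [Prod.mk.injEq] at h
        rw [← Nat.mul_div_cancel' (Nat.minFac_dvd d), ← Nat.mul_div_cancel' (Nat.minFac_dvd d'),
          h.2, h.1]
    rw [h4]
    apply Finset.sum_le_sum_of_subset_of_nonneg
    · intro x hx
      rw [Finset.mem_image] at hx
      obtain ⟨d, hd, rfl⟩ := hx
      simp only [R, rough, Finset.mem_filter, Finset.mem_Icc] at hd
      obtain ⟨⟨⟨hd1, hdz⟩, hdp⟩, hdk⟩ := hd
      have hd0 : d ≠ 0 := by omega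
      have hne1 : d ≠ 1 := by
        rintro rfl
        simp at hdk
      have hp : d.minFac.Prime := Nat.minFac_prime hne1
      have hdvd := Nat.minFac_dvd d
      have hple : d.minFac ≤ d := Nat.minFac_le (by omega)
      have hpos : 0 < d / d.minFac := Nat.div_pos hple hp.pos
      have hmem : d.minFac ∈ d.primeFactors := by
        rw [Nat.mem_primeFactors]
        exact ⟨hp, hdvd, hd0⟩
      rw [Finset.mem_product]
      refine ⟨?_, ?_⟩
      · simp only [pri, Finset.mem_filter, Finset.mem_Ioc]
        exact ⟨⟨hdp _ hmem, hple.trans hdz⟩, hp⟩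
      · simp only [R, rough, Finset.mem_filter, Finset.mem_Icc]
        refine ⟨⟨⟨hpos, (Nat.div_le_self _ _).trans hdz⟩, ?_⟩, ?_⟩
        · intro p hp'
          apply hdp
          exact Nat.primeFactors_mono (Nat.div_dvd_of_dvd hdvd) hd0 hp'
        · have h5 : d.minFac * (d / d.minFac) = d := Nat.mul_div_cancel' hdvd
          have h6 := ArithmeticFunction.cardFactors_mul hp.ne_zero hpos.ne'
          rw [h5, hdk, ArithmeticFunction.cardFactors_apply_prime hp] at h6
          omega
    · intro x _ _
      have := hφ (m * (x.1 * x.2))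
      positivity

end RO

open RO

theorem pf_Rough : StRough := by
  intro w A hw φ hφ
  have hmaps : ∀ d ∈ rough w (w ^ A), ArithmeticFunction.cardFactors d ∈ range (A + 1) := by
    intro d hd
    simp only [rough, Finset.mem_filter, Finset.mem_Icc] at hd
    obtain ⟨⟨hd1, hdz⟩, hdp⟩ := hd
    rw [Finset.mem_range, Nat.lt_succ_iff]
    have h1 : w ^ (d.primeFactorsList.length) ≤ d.primeFactorsList.prod := by
      apply List.pow_card_le_prod
      intro p hp
      have : p ∈ d.primeFactors := by
        rw [← Nat.mem_primeFactors_iff_mem_primeFactorsList] at hp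
        exact hp
      exact (hdp p this).le
    rw [Nat.prod_primeFactorsList (by omega)] at h1
    rw [ArithmeticFunction.cardFactors_apply]
    exact (Nat.pow_le_pow_iff_right (by omega)).mp (h1.trans hdz)
  rw [← Finset.sum_fiberwise_of_maps_to hmaps]
  apply Finset.sum_le_sum
  intro k _
  have := chain w (w ^ A) φ hφ k 1
  simp only [one_mul] at this
  exact this

end Pool.Agent.Helper18.ED
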