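import Pool.Agent.Helper18.ED.St

/-! Module SM: submodularity and monotonicity of the entropy. -/

namespace Pool.Agent.Helper18.ED

open Finset Real

/-- one cell of the submodularity inequality -/
lemma sm_cell {a b c d : ℝ} (ha : 0 ≤ a) (hb : 0 ≤ b) (hc : 0 ≤ c) (hd : 0 ≤ d)
    (hpos : 0 < a → 0 < b ∧ 0 < c ∧ 0 < d) :
    a - b * c / d ≤ a * log a + a * log d - a * log b - a * log c := by
  rcases ha.eq_or_lt with h0 | h0
  · subst h0
    have : 0 ≤ b * c / d := by positivity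
    simp only [zero_mul]
    linarith
  · obtain ⟨hb', hc', hd'⟩ := hpos h0
    have h1 := one_sub_inv_le_log_of_pos (x := a * d / (b * c)) (by positivity)
    have h2 : log (a * d / (b * c)) = log a + log d - log b - log c := by
      rw [log_div (by positivity) (by positivity), log_mul h0.ne' hd'.ne',
        log_mul hb'.ne' hc'.ne']
      ring
    rw [h2] at h1
    have h3 := mul_le_mul_of_nonneg_left h1 h0.le
    have h4 : a * (1 - (a * d / (b * c))⁻¹) = a - b * c / d := by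
      field_simp
    rw [h4] at h3
    linarith

/-- finite submodularity -/
lemma sm_fin {A B C : Type} (T1 : Finset A) (T2 : Finset B) (T3 : Finset C)
    (a : A → B → C → ℝ) (ha : ∀ x y z, 0 ≤ a x y z) :
    ∑ x ∈ T1, ∑ y ∈ T2, ∑ z ∈ T3, negMulLog (a x y z) +
      ∑ z ∈ T3, negMulLog (∑ x ∈ T1, ∑ y ∈ T2, a x y z) ≤
    ∑ x ∈ T1, ∑ z ∈ T3, negMulLog (∑ y ∈ T2, a x y z) +
      ∑ y ∈ T2, ∑ z ∈ T3, negMulLog (∑ x ∈ T1, a x y z) := by
  set b : A → C → ℝ := fun x z => ∑ y ∈ T2, a x y z with hb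
  set c : B → C → ℝ := fun y z => ∑ x ∈ T1, a x y z with hc
  set d : C → ℝ := fun z => ∑ x ∈ T1, ∑ y ∈ T2, a x y z with hd
  have hb0 : ∀ x z, 0 ≤ b x z := fun x z => sum_nonneg (fun y _ => ha x y z)
  have hc0 : ∀ y z, 0 ≤ c y z := fun y z => sum_nonneg (fun x _ => ha x y z)
  have hd0 : ∀ z, 0 ≤ d z := fun z => sum_nonneg (fun x _ => hb0 x z)
  -- the four sums as triple sums
  have e1 : ∑ z ∈ T3, negMulLog (∑ x ∈ T1, ∑ y ∈ T2, a x y z) =
      ∑ x ∈ T1, ∑ y ∈ T2, ∑ z ∈ T3, (-(a x y z * log (d z))) := by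
    have : ∀ z ∈ T3, negMulLog (∑ x ∈ T1, ∑ y ∈ T2, a x y z) =
        ∑ x ∈ T1, ∑ y ∈ T2, (-(a x y z * log (d z))) := by
      intro z _
      rw [negMulLog, neg_mul, sum_mul, ← sum_neg_distrib]
      refine sum_congr rfl fun x _ => ?_
      rw [sum_mul, ← sum_neg_distrib]
    rw [sum_congr rfl this, sum_comm]
    refine sum_congr rfl fun x _ => ?_
    rw [sum_comm]
  have e2 : ∑ x ∈ T1, ∑ z ∈ T3, negMulLog (∑ y ∈ T2, a x y z) =
      ∑ x ∈ T1, ∑ y ∈ T2, ∑ z ∈ T3, (-(a x y z * log (b x z))) := by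
    refine sum_congr rfl fun x _ => ?_
    rw [sum_comm]
    refine sum_congr rfl fun z _ => ?_
    rw [negMulLog, neg_mul, sum_mul, ← sum_neg_distrib]
  have e3 : ∑ y ∈ T2, ∑ z ∈ T3, negMulLog (∑ x ∈ T1, a x y z) =
      ∑ x ∈ T1, ∑ y ∈ T2, ∑ z ∈ T3, (-(a x y z * log (c y z))) := by
    rw [sum_comm (s := T1)]
    refine sum_congr rfl fun y _ => ?_
    rw [sum_comm]
    refine sum_congr rfl fun z _ => ?_
    rw [negMulLog, neg_mul, sum_mul, ← sum_neg_distrib]
  have key : 0 ≤ ∑ x ∈ T1, ∑ y ∈ T2, ∑ z ∈ T3,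
      (a x y z * log (a x y z) + a x y z * log (d z) - a x y z * log (b x z)
        - a x y z * log (c y z)) := by
    have h1 : ∑ x ∈ T1, ∑ y ∈ T2, ∑ z ∈ T3, (a x y z - b x z * c y z / d z) = 0 := by
      simp only [sum_sub_distrib]
      rw [sub_eq_zero]
      have h2 : ∑ x ∈ T1, ∑ y ∈ T2, ∑ z ∈ T3, a x y z = ∑ z ∈ T3, d z := by
        rw [hd]
        simp only
        rw [sum_comm (s := T3)]
        refine sum_congr rfl fun x _ => ?_
        rw [sum_comm]
      have h3 : ∑ x ∈ T1, ∑ y ∈ T2, ∑ z ∈ T3, b x z * c y z / d z = ∑ z ∈ T3, d z := by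
        have h4 : ∑ x ∈ T1, ∑ y ∈ T2, ∑ z ∈ T3, b x z * c y z / d z =
            ∑ z ∈ T3, ∑ x ∈ T1, ∑ y ∈ T2, b x z * c y z / d z := by
          rw [sum_comm (s := T3)]
          refine sum_congr rfl fun x _ => ?_
          rw [sum_comm]
        rw [h4]
        refine sum_congr rfl fun z _ => ?_
        have h5 : ∑ x ∈ T1, ∑ y ∈ T2, b x z * c y z / d z =
            (∑ x ∈ T1, b x z) * (∑ y ∈ T2, c y z) / d z := by
          rw [sum_mul_sum, sum_div]
          refine sum_congr rfl fun x _ => ?_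
          rw [sum_div]
        have h6 : ∑ y ∈ T2, c y z = d z := by
          rw [hc, hd]
          simp only
          rw [sum_comm]
        have h7 : ∑ x ∈ T1, b x z = d z := rfl
        rw [h5, h6, h7]
        rcases (hd0 z).eq_or_lt with h8 | h8
        · rw [← h8]; simp
        · field_simp
      rw [h2, h3]
    rw [← h1]
    refine sum_le_sum fun x hx => sum_le_sum fun y hy => sum_le_sum fun z hz => ?_
    refine sm_cell (ha x y z) (hb0 x z) (hc0 y z) (hd0 z) fun h => ?_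
    have h1 : a x y z ≤ b x z := single_le_sum (f := fun y => a x y z)
      (fun y _ => ha x y z) hy
    have h2 : a x y z ≤ c y z := single_le_sum (f := fun x => a x y z)
      (fun x _ => ha x y z) hx
    have h3 : b x z ≤ d z := single_le_sum (f := fun x => b x z)
      (fun x _ => hb0 x z) hx
    exact ⟨by linarith, by linarith, by linarith⟩
  rw [e1, e2, e3]
  have e4 : ∑ x ∈ T1, ∑ y ∈ T2, ∑ z ∈ T3, negMulLog (a x y z) =
      ∑ x ∈ T1, ∑ y ∈ T2, ∑ z ∈ T3, (-(a x y z * log (a x y z))) := by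
    refine sum_congr rfl fun x _ => sum_congr rfl fun y _ => sum_congr rfl fun z _ => ?_
    rw [negMulLog, neg_mul]
  rw [e4]
  simp only [sum_sub_distrib, sum_add_distrib, sum_neg_distrib] at key ⊢
  linarith

theorem pf_Submod (hE : StEntSum) (hPart : StPart) : StSubmod := by
  intro P hP S₁ S₂ S₃ X Y Z hX hY hZ
  classical
  set T1 := hX.toFinset with hT1
  set T2 := hY.toFinset with hT2
  set T3 := hZ.toFinset with hT3
  have m1 : ∀ n, X n ∈ T1 := fun n => by rw [hT1, Set.Finite.mem_toFinset]; exact ⟨n, rfl⟩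
  have m2 : ∀ n, Y n ∈ T2 := fun n => by rw [hT2, Set.Finite.mem_toFinset]; exact ⟨n, rfl⟩
  have m3 : ∀ n, Z n ∈ T3 := fun n => by rw [hT3, Set.Finite.mem_toFinset]; exact ⟨n, rfl⟩
  set a : S₁ → S₂ → S₃ → ℝ := fun x y z => P {n | X n = x ∧ Y n = y ∧ Z n = z} with ha
  have hmain := sm_fin T1 T2 T3 a (fun x y z => hP.nonneg _)
  have hb : ∀ x z, ∑ y ∈ T2, a x y z = P {n | X n = x ∧ Z n = z} := by
    intro x z
    rw [← hPart P hP Y T2 m2 {n | X n = x ∧ Z n = z}]
    refine sum_congr rfl fun y _ => ?_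
    refine congrArg P (Set.ext fun n => ?_)
    simp only [Set.mem_ofPred_eq]
    tauto
  have hc : ∀ y z, ∑ x ∈ T1, a x y z = P {n | Y n = y ∧ Z n = z} := by
    intro y z
    rw [← hPart P hP X T1 m1 {n | Y n = y ∧ Z n = z}]
    refine sum_congr rfl fun x _ => ?_
    refine congrArg P (Set.ext fun n => ?_)
    simp only [Set.mem_ofPred_eq]
    tauto
  have hd : ∀ z, ∑ x ∈ T1, ∑ y ∈ T2, a x y z = P {n | Z n = z} := by
    intro z
    rw [sum_congr rfl (fun x _ => hb x z), ← hPart P hP X T1 m1 {n | Z n = z}]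
    refine sum_congr rfl fun x _ => ?_
    congr 1
    ext n
    simp only [Set.mem_ofPred_eq]
    tauto
  have E1 : ent P (fun n => (X n, Y n, Z n)) =
      ∑ x ∈ T1, ∑ y ∈ T2, ∑ z ∈ T3, negMulLog (a x y z) := by
    rw [hE P hP (fun n => (X n, Y n, Z n)) (T1 ×ˢ T2 ×ˢ T3)
      (fun n => by simp only [mem_product]; exact ⟨m1 n, m2 n, m3 n⟩), sum_product]
    refine sum_congr rfl fun x _ => ?_
    rw [sum_product]
    refine sum_congr rfl fun y _ => sum_congr rfl fun z _ => ?_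
    simp only [Prod.mk.injEq, ha]
  have E2 : ent P Z = ∑ z ∈ T3, negMulLog (∑ x ∈ T1, ∑ y ∈ T2, a x y z) := by
    rw [hE P hP Z T3 m3]
    exact sum_congr rfl fun z _ => by rw [hd]
  have E3 : ent P (fun n => (X n, Z n)) =
      ∑ x ∈ T1, ∑ z ∈ T3, negMulLog (∑ y ∈ T2, a x y z) := by
    rw [hE P hP (fun n => (X n, Z n)) (T1 ×ˢ T3)
      (fun n => by simp only [mem_product]; exact ⟨m1 n, m3 n⟩), sum_product]
    refine sum_congr rfl fun x _ => sum_congr rfl fun z _ => ?_
    rw [hb]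
    simp only [Prod.mk.injEq]
  have E4 : ent P (fun n => (Y n, Z n)) =
      ∑ y ∈ T2, ∑ z ∈ T3, negMulLog (∑ x ∈ T1, a x y z) := by
    rw [hE P hP (fun n => (Y n, Z n)) (T2 ×ˢ T3)
      (fun n => by simp only [mem_product]; exact ⟨m2 n, m3 n⟩), sum_product]
    refine sum_congr rfl fun y _ => sum_congr rfl fun z _ => ?_
    rw [hc]
    simp only [Prod.mk.injEq]
  rw [E1, E2, E3, E4]
  exact hmain

/-- the entropy of a coarser partition, one cell -/
lemma sm_merge {A : Type} (T : Finset A) (a : A → ℝ) (ha : ∀ x, 0 ≤ a x) :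
    negMulLog (∑ x ∈ T, a x) ≤ ∑ x ∈ T, negMulLog (a x) := by
  rw [negMulLog, neg_mul, sum_mul, ← sum_neg_distrib]
  refine sum_le_sum fun x hx => ?_
  rw [negMulLog, neg_mul]
  refine neg_le_neg ?_
  rcases (ha x).eq_or_lt with h | h
  · rw [← h]; simp
  · refine mul_le_mul_of_nonneg_left ?_ h.le
    exact log_le_log h (single_le_sum (fun y _ => ha y) hx)

theorem pf_EntMono (hE : StEntSum) (hPart : StPart) (hEmpty : StEmpty) : StEntMono := by
  intro P hP S S' X Y hX hY hXY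
  classical
  set T1 := hX.toFinset with hT1
  set T2 := hY.toFinset with hT2
  have m1 : ∀ n, X n ∈ T1 := fun n => by rw [hT1, Set.Finite.mem_toFinset]; exact ⟨n, rfl⟩
  have m2 : ∀ n, Y n ∈ T2 := fun n => by rw [hT2, Set.Finite.mem_toFinset]; exact ⟨n, rfl⟩
  set a : S → S' → ℝ := fun x y => P {n | X n = x ∧ Y n = y} with ha
  rw [hE P hP X T1 m1, hE P hP Y T2 m2]
  have h1 : ∀ x ∈ T1, negMulLog (P {n | X n = x}) = ∑ y ∈ T2, negMulLog (a x y) := by
    intro x hx
    rw [hT1, Set.Finite.mem_toFinset] at hx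
    obtain ⟨n0, hn0⟩ := hx
    rw [sum_eq_single (Y n0)]
    · congr 2
      ext n
      simp only [Set.mem_ofPred_eq]
      constructor
      · intro h
        exact ⟨h, hXY n n0 (by rw [h, hn0])⟩
      · intro h
        exact h.1
    · intro y _ hy
      have : {n | X n = x ∧ Y n = y} = (∅ : Set ℕ) := by
        ext n
        simp only [Set.mem_ofPred_eq, Set.mem_empty_iff_false, iff_false, not_and]
        intro h1 h2
        exact hy (by rw [← h2]; exact hXY n n0 (by rw [h1, hn0]))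
      rw [ha]
      simp only
      rw [this, hEmpty P hP, negMulLog_zero]
    · intro h
      exact absurd (m2 n0) h
  rw [sum_congr rfl h1, sum_comm]
  refine sum_le_sum fun y _ => ?_
  have h2 : P {n | Y n = y} = ∑ x ∈ T1, a x y := by
    rw [← hPart P hP X T1 m1 {n | Y n = y}]
    refine sum_congr rfl fun x _ => ?_
    rw [ha]
    congr 1
    ext n
    simp only [Set.mem_ofPred_eq]
    tauto
  rw [h2]
  exact sm_merge T1 (fun x => a x y) (fun x => hP.nonneg _)

end Pool.Agent.Helper18.ED
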