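import Pool.Agent.Helper18.ED.St

/-! Module TL: telescoping along the path. -/

namespace Pool.Agent.Helper18.ED

open Finset

lemma tl_prod_dvd (y : ℕ) :
    Nat.factorial y * ∏ p ∈ pri y (2 * y), p ∣ Nat.factorial (2 * y) := by
  have hmem : ∀ p ∈ pri y (2 * y), y < p ∧ p ≤ 2 * y ∧ p.Prime := by
    intro p hp
    simp only [pri, mem_filter, mem_Ioc] at hp
    exact ⟨hp.1.1, hp.1.2, hp.2⟩
  refine Nat.Coprime.mul_dvd_of_dvd_of_dvd ?_ (Nat.factorial_dvd_factorial (by omega)) ?_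
  · refine Nat.Coprime.prod_right fun p hp => ?_
    obtain ⟨h1, _, h3⟩ := hmem p hp
    exact (Nat.Prime.coprime_iff_not_dvd h3).2
      (fun h => by have := (Nat.Prime.dvd_factorial h3).1 h; omega) |>.symm
  · refine Finset.prod_primes_dvd _ (fun p hp => (hmem p hp).2.2.prime) (fun p hp => ?_)
    obtain ⟨h1, h2, h3⟩ := hmem p hp
    exact (Nat.Prime.dvd_factorial h3).2 h2

lemma tl_block (hsub : StCEsub) (hanti : StCEanti) (hinf : StCEinf) (hsuper : StCEsuper)
    (hnn : StCEinfNonneg) (P : Set ℕ → ℝ) (hP : LogProb P) (f : ℕ → ℤˣ) (m H M y : ℕ)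
    (hH : 1 ≤ H) (hy : 1 ≤ y) (hM : M ∣ Nat.factorial y) :
    ∑ p ∈ pri y (2 * y), (1 / (p : ℝ)) * inf P f m H M p ≤
      2 * H * (aa P f H m y - aa P f H m (2 * y)) := by
  have hmem : ∀ p ∈ pri y (2 * y), y < p ∧ p ≤ 2 * y ∧ p.Prime := by
    intro p hp
    simp only [pri, mem_filter, mem_Ioc] at hp
    exact ⟨hp.1.1, hp.1.2, hp.2⟩
  have hfac : 1 ≤ Nat.factorial y := Nat.factorial_pos y
  have hcop : ∀ p ∈ pri y (2 * y), Nat.Coprime (Nat.factorial y) p := by
    intro p hp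
    obtain ⟨h1, _, h3⟩ := hmem p hp
    exact ((Nat.Prime.coprime_iff_not_dvd h3).2
      (fun h => by have := (Nat.Prime.dvd_factorial h3).1 h; omega)).symm
  have hypos : (0 : ℝ) < y := by exact_mod_cast hy
  have hHpos : (0 : ℝ) < H := by exact_mod_cast hH
  set N := H * (2 * y) with hN
  have h1 : ∀ p ∈ pri y (2 * y), (1 / (p : ℝ)) * inf P f m H M p ≤
      (1 / (y : ℝ)) * (cE P f m N (Nat.factorial y) - cE P f m N (Nat.factorial y * p)) := by
    intro p hp
    obtain ⟨h1, h2, h3⟩ := hmem p hp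
    have h4 : inf P f m H M p ≤
        cE P f m N (Nat.factorial y) - cE P f m N (Nat.factorial y * p) :=
      hinf P hP f m (H * p) N M (Nat.factorial y) p hfac h3.one_lt.le
        (Nat.mul_le_mul_left _ h2) hM (hcop p hp)
    have h5 : 0 ≤ cE P f m N (Nat.factorial y) - cE P f m N (Nat.factorial y * p) :=
      hnn P hP f m N (Nat.factorial y) p hfac h3.one_lt.le
    have h6 : (0 : ℝ) < p := by exact_mod_cast h3.pos
    have h7 : (1 / (p : ℝ)) ≤ 1 / (y : ℝ) := by
      apply one_div_le_one_div_of_le hypos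
      exact_mod_cast h1.le
    calc (1 / (p : ℝ)) * inf P f m H M p
        ≤ (1 / (p : ℝ)) * (cE P f m N (Nat.factorial y) - cE P f m N (Nat.factorial y * p)) :=
          mul_le_mul_of_nonneg_left h4 (by positivity)
      _ ≤ _ := mul_le_mul_of_nonneg_right h7 h5
  have h2 := hsuper P hP f m N (Nat.factorial y) (pri y (2 * y)) hfac
    (fun p hp => ⟨(hmem p hp).2.2, hcop p hp⟩)
  have h3 : cE P f m N (Nat.factorial (2 * y)) ≤
      cE P f m N (Nat.factorial y * ∏ p ∈ pri y (2 * y), p) :=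
    hanti P hP f m N _ _ (Nat.factorial_pos _) (tl_prod_dvd y)
  have h4 : cE P f m N (Nat.factorial y) ≤ 2 * cE P f m (H * y) (Nat.factorial y) := by
    have := hsub P hP f m (H * y) (H * y) (Nat.factorial y) hfac
    have e : H * y + H * y = N := by rw [hN]; ring
    rw [e] at this
    linarith
  calc ∑ p ∈ pri y (2 * y), (1 / (p : ℝ)) * inf P f m H M p
      ≤ ∑ p ∈ pri y (2 * y), (1 / (y : ℝ)) *
          (cE P f m N (Nat.factorial y) - cE P f m N (Nat.factorial y * p)) :=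
        sum_le_sum h1
    _ = (1 / (y : ℝ)) * ∑ p ∈ pri y (2 * y),
          (cE P f m N (Nat.factorial y) - cE P f m N (Nat.factorial y * p)) := by
        rw [mul_sum]
    _ ≤ (1 / (y : ℝ)) * (2 * cE P f m (H * y) (Nat.factorial y) -
          cE P f m N (Nat.factorial (2 * y))) :=
        mul_le_mul_of_nonneg_left (by linarith) (by positivity)
    _ = 2 * H * (aa P f H m y - aa P f H m (2 * y)) := by
        rw [aa, aa, ← hN]
        push_cast
        field_simp

theorem pf_Tele (hsub : StCEsub) (hanti : StCEanti) (hinf : StCEinf) (hsuper : StCEsuper)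
    (hnn : StCEinfNonneg) : StTele := by
  intro P hP f m H M w r hH hw hM
  induction r with
  | zero =>
    have : pri w (2 ^ 0 * w) = ∅ := by
      simp [pri]
    rw [this]
    simp
  | succ r ih =>
    have hpow : 1 ≤ 2 ^ r := Nat.one_le_two_pow
    have hle : w ≤ 2 ^ r * w := Nat.le_mul_of_pos_left w hpow
    have e1 : 2 ^ (r + 1) * w = 2 * (2 ^ r * w) := by ring
    have hun : pri w (2 ^ (r + 1) * w) =
        pri w (2 ^ r * w) ∪ pri (2 ^ r * w) (2 * (2 ^ r * w)) := by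
      ext p
      rw [e1]
      simp only [pri, mem_union, mem_filter, mem_Ioc]
      constructor
      · rintro ⟨⟨h1, h2⟩, h3⟩
        rcases le_or_gt p (2 ^ r * w) with h | h
        · exact Or.inl ⟨⟨h1, h⟩, h3⟩
        · exact Or.inr ⟨⟨h, h2⟩, h3⟩
      · rintro (⟨⟨h1, h2⟩, h3⟩ | ⟨⟨h1, h2⟩, h3⟩)
        · exact ⟨⟨h1, by omega⟩, h3⟩
        · exact ⟨⟨by omega, h2⟩, h3⟩
    have hdis : Disjoint (pri w (2 ^ r * w)) (pri (2 ^ r * w) (2 * (2 ^ r * w))) := by
      rw [Finset.disjoint_left]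
      intro p hp hq
      simp only [pri, mem_filter, mem_Ioc] at hp hq
      omega
    rw [hun, sum_union hdis, e1]
    have hb := tl_block hsub hanti hinf hsuper hnn P hP f m H M (2 ^ r * w) hH
      (by omega) (hM.trans (Nat.factorial_dvd_factorial hle))
    linarith

theorem pf_AaLower (hanti : StCEanti) (hinter : StCEinter) : StAaLower := by
  intro P hP f m H y hH hy hm
  have hypos : (0 : ℝ) < y := by exact_mod_cast hy
  have hHpos : (0 : ℝ) < H := by exact_mod_cast hH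
  have hmpos : (0 : ℝ) < m := by exact_mod_cast hm
  have h1 : cE P f 1 (H * (m * y)) (Nat.factorial (m * y)) ≤
      cE P f 1 (H * (m * y)) (Nat.factorial y) :=
    hanti P hP f 1 _ _ _ (Nat.factorial_pos _)
      (Nat.factorial_dvd_factorial (Nat.le_mul_of_pos_left y hm))
  have h2 := hinter P hP f m (H * y) (Nat.factorial y) (Nat.factorial_pos _) hm
  have e : m * (H * y) = H * (m * y) := by ring
  rw [e] at h2
  rw [aa, aa]
  push_cast
  rw [div_le_div_iff₀ (by positivity) (by positivity)]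
  have h3 := h1.trans h2
  have h4 : (0 : ℝ) ≤ H * y := by positivity
  nlinarith [mul_le_mul_of_nonneg_right h3 h4]

lemma tl_mul (hsub : StCEsub) (P : Set ℕ → ℝ) (hP : LogProb P) (f : ℕ → ℤˣ) (m H₁ M₁ : ℕ)
    (hM₁ : 1 ≤ M₁) (c : ℕ) :
    cE P f m ((c + 1) * H₁) M₁ ≤ ((c : ℝ) + 1) * cE P f m H₁ M₁ := by
  induction c with
  | zero => simp
  | succ c ih =>
    have := hsub P hP f m ((c + 1) * H₁) H₁ M₁ hM₁
    have e : (c + 1) * H₁ + H₁ = (c + 1 + 1) * H₁ := by ring
    rw [e] at this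
    push_cast
    linarith

theorem pf_AaUpper (hsub : StCEsub) (hanti : StCEanti) (hmono : StCEmono)
    (hnonneg : StCEnonneg) : StAaUpper := by
  intro P hP f m H y H₁ M₁ hH hy hH₁ hM₁
  have hypos : (0 : ℝ) < y := by exact_mod_cast hy
  have hHpos : (0 : ℝ) < H := by exact_mod_cast hH
  have hH₁pos : (0 : ℝ) < H₁ := by exact_mod_cast hH₁
  have hM₁pos : 1 ≤ M₁ := Nat.pos_of_dvd_of_pos hM₁ (Nat.factorial_pos y)
  have h1 : cE P f m (H * y) (Nat.factorial y) ≤ cE P f m (H * y) M₁ :=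
    hanti P hP f m _ _ _ (Nat.factorial_pos _) hM₁
  have h2 : cE P f m (H * y) M₁ ≤ cE P f m ((H * y / H₁ + 1) * H₁) M₁ := by
    refine hmono P hP f m _ _ _ hM₁pos ?_
    have := Nat.lt_div_mul_add (a := H * y) (b := H₁) hH₁
    have e : (H * y / H₁ + 1) * H₁ = H * y / H₁ * H₁ + H₁ := by ring
    omega
  have h3 := tl_mul hsub P hP f m H₁ M₁ hM₁pos (H * y / H₁)
  have h4 : ((H * y / H₁ : ℕ) : ℝ) ≤ (H : ℝ) * y / H₁ := by
    have := Nat.cast_div_le (α := ℝ) (m := H * y) (n := H₁)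
    push_cast at this
    exact this
  have h5 : 0 ≤ cE P f m H₁ M₁ := hnonneg P hP f m H₁ M₁ hM₁pos
  have h6 : cE P f m (H * y) (Nat.factorial y) ≤
      ((H : ℝ) * y / H₁ + 1) * cE P f m H₁ M₁ := by
    refine (h1.trans (h2.trans h3)).trans ?_
    exact mul_le_mul_of_nonneg_right (by linarith) h5
  rw [aa]
  rw [div_le_iff₀ (by positivity)]
  refine h6.trans (le_of_eq ?_)
  field_simp

end Pool.Agent.Helper18.ED
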