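import Pool.Agent.Helper18.ED.Asm
import Pool.Agent.Helper18.ED.CE1
import Pool.Agent.Helper18.ED.CE2
import Pool.Agent.Helper18.ED.CE3
import Pool.Agent.Helper18.ED.CH
import Pool.Agent.Helper18.ED.EB
import Pool.Agent.Helper18.ED.EC
import Pool.Agent.Helper18.ED.GD
import Pool.Agent.Helper18.ED.LR
import Pool.Agent.Helper18.ED.ME
import Pool.Agent.Helper18.ED.MN
import Pool.Agent.Helper18.ED.PB
import Pool.Agent.Helper18.ED.PK
import Pool.Agent.Helper18.ED.RO
import Pool.Agent.Helper18.ED.SM
import Pool.Agent.Helper18.ED.TL
import Pool.Agent.Helper32.ED.CT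
import Pool.Agent.Helper67.ED.OS

/-! Final assembly of the entropy decrement theorem. -/

namespace Pool.Agent.Helper18.ED

theorem entSum : StEntSum := pf_EntSum pf_Empty
theorem entCongr : StEntCongr := pf_EntCongr pf_Empty
theorem entShift : StEntShift := pf_EntShift pf_Shift
theorem entMod : StEntMod := pf_EntMod pf_Empty pf_Mod
theorem submod : StSubmod := pf_Submod entSum pf_Part
theorem entMono : StEntMono := pf_EntMono entSum pf_Part pf_Empty
theorem pinsker : StPinsker := pf_Pinsker entSum pf_Part pf_Mono
theorem ceNonneg : StCEnonneg := pf_CEnonneg entMono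
theorem ceMono : StCEmono := pf_CEmono entMono
theorem ceSub : StCEsub := pf_CEsub entCongr entShift submod
theorem ceAnti : StCEanti := pf_CEanti entCongr submod
theorem ceInf : StCEinf := pf_CEinf entCongr entMod submod
theorem ceInfNonneg : StCEinfNonneg := pf_CEinfNonneg ceAnti
theorem ceSuper : StCEsuper := pf_CEsuper ceInf
theorem ceMut : StCEmut := pf_CEmut entCongr entMod
theorem ceInter : StCEinter := pf_CEinter entCongr entShift submod
theorem tele : StTele := pf_Tele ceSub ceAnti ceInf ceSuper ceInfNonneg
theorem aaLower : StAaLower := pf_AaLower ceAnti ceInter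
theorem aaUpper : StAaUpper := pf_AaUpper ceSub ceAnti ceMono ceNonneg
theorem close : StClose := pf_Close entSum entCongr pf_Cont pf_Mono
theorem law : StLaw := pf_Law pf_Empty pf_Part pf_Pos pf_Shift pf_Dil pf_Mod pinsker ceMut
theorem step : StStep := pf_Step tele aaLower aaUpper close ceNonneg
theorem chain : StChain :=
  pf_Chain (pf_TVle pf_Part) pf_TVone law pf_Mertens step ceInfNonneg

/-- Entropy decrement: for a completely multiplicative `±1`-valued `f`, almost all `w`-rough
differences `d ≤ w ^ A` have the property that the window of step `d` has the same law as `f d`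
times the window of step `1`. -/
theorem main : StMain := pf_Main chain pf_Rough

/-- almost all rough differences are good when the correlation sums are bounded -/
theorem good : StGood := pf_Good main pf_Part pf_Pos pf_Empty

end Pool.Agent.Helper18.ED
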