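import Pool.Agent.Helper18.ED.Defs

/-! Statements of the modules (every module proves the `Prop` of its name). -/

namespace Pool.Agent.Helper18.ED

open Finset

/-! ### Module PB: basic properties of `P` -/

def StEmpty : Prop := ∀ P : Set ℕ → ℝ, LogProb P → P ∅ = 0

def StMono : Prop := ∀ P : Set ℕ → ℝ, LogProb P → ∀ A B : Set ℕ, A ⊆ B → P A ≤ P B

/-- partition over the values of a function with values in a finite set -/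
def StPart : Prop := ∀ P : Set ℕ → ℝ, LogProb P → ∀ {S : Type} (X : ℕ → S) (T : Finset S),
  (∀ n, X n ∈ T) → ∀ A : Set ℕ, ∑ s ∈ T, P {n | n ∈ A ∧ X n = s} = P A

/-- only positive integers matter -/
def StPos : Prop := ∀ P : Set ℕ → ℝ, LogProb P → ∀ A B : Set ℕ,
  (∀ n, 1 ≤ n → (n ∈ A ↔ n ∈ B)) → P A = P B

def StShift : Prop := ∀ P : Set ℕ → ℝ, LogProb P → ∀ (k : ℕ) (A : Set ℕ), P {n | n + k ∈ A} = P A

/-- dilation, convenient form -/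
def StDil : Prop := ∀ P : Set ℕ → ℝ, LogProb P → ∀ (d : ℕ), 1 ≤ d → ∀ (A : Set ℕ),
  P {n | d ∣ n ∧ n ∈ A} = P {n | d * n ∈ A} / d

def StMod : Prop := ∀ P : Set ℕ → ℝ, LogProb P → ∀ (M r : ℕ), r < M →
  P {n | n % M = r} = 1 / M

/-! ### Module EB: basic properties of the entropy -/

def StEntSum : Prop := ∀ P : Set ℕ → ℝ, LogProb P → ∀ {S : Type} (X : ℕ → S) (T : Finset S),
  (∀ n, X n ∈ T) → ent P X = ∑ s ∈ T, Real.negMulLog (P {n | X n = s})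

/-- the entropy depends only on the partition -/
def StEntCongr : Prop := ∀ P : Set ℕ → ℝ, LogProb P → ∀ {S S' : Type} (X : ℕ → S) (Y : ℕ → S'),
  FR X → (∀ n n', X n = X n' ↔ Y n = Y n') → ent P X = ent P Y

def StEntShift : Prop := ∀ P : Set ℕ → ℝ, LogProb P → ∀ {S : Type} (X : ℕ → S) (k : ℕ),
  ent P (fun n => X (n + k)) = ent P X

def StEntMod : Prop := ∀ P : Set ℕ → ℝ, LogProb P → ∀ M : ℕ, 1 ≤ M →
  ent P (fun n => n % M) = Real.log M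

/-! ### Module SM: submodularity -/

def StSubmod : Prop := ∀ P : Set ℕ → ℝ, LogProb P → ∀ {S₁ S₂ S₃ : Type} (X : ℕ → S₁)
  (Y : ℕ → S₂) (Z : ℕ → S₃), FR X → FR Y → FR Z →
  ent P (fun n => (X n, Y n, Z n)) + ent P Z ≤
    ent P (fun n => (X n, Z n)) + ent P (fun n => (Y n, Z n))

/-- a finer partition has larger entropy -/
def StEntMono : Prop := ∀ P : Set ℕ → ℝ, LogProb P → ∀ {S S' : Type} (X : ℕ → S) (Y : ℕ → S'),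
  FR X → FR Y → (∀ n n', X n = X n' → Y n = Y n') → ent P Y ≤ ent P X

/-! ### Module PK: Pinsker -/

def StPinsker : Prop := ∀ P : Set ℕ → ℝ, LogProb P → ∀ {S S' : Type} (X : ℕ → S) (Y : ℕ → S')
  (T : Finset S) (T' : Finset S'), (∀ n, X n ∈ T) → (∀ n, Y n ∈ T') →
  ∑ s ∈ T, ∑ t ∈ T', |P {n | X n = s ∧ Y n = t} - P {n | X n = s} * P {n | Y n = t}| ≤
    2 * Real.sqrt (ent P X + ent P Y - ent P (fun n => (X n, Y n)))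

/-! ### Module CT: continuity of the entropy -/

def StCont : Prop := ∀ (S : Type) (T : Finset S) (ε : ℝ), 0 < ε → ∃ δ > 0, ∀ p q : S → ℝ,
  (∀ s ∈ T, 0 ≤ p s ∧ p s ≤ 1) → (∀ s ∈ T, 0 ≤ q s ∧ q s ≤ 1) →
  ∑ s ∈ T, |p s - q s| ≤ δ →
  |∑ s ∈ T, Real.negMulLog (p s) - ∑ s ∈ T, Real.negMulLog (q s)| ≤ ε

/-! ### Module CE: conditional entropies of windows -/

def StCEnonneg : Prop := ∀ P : Set ℕ → ℝ, LogProb P → ∀ (f : ℕ → ℤˣ) (m H M : ℕ), 1 ≤ M →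
  0 ≤ cE P f m H M

def StCEsub : Prop := ∀ P : Set ℕ → ℝ, LogProb P → ∀ (f : ℕ → ℤˣ) (m H H' M : ℕ), 1 ≤ M →
  cE P f m (H + H') M ≤ cE P f m H M + cE P f m H' M

def StCEanti : Prop := ∀ P : Set ℕ → ℝ, LogProb P → ∀ (f : ℕ → ℤˣ) (m H M M' : ℕ), 1 ≤ M' →
  M ∣ M' → cE P f m H M' ≤ cE P f m H M

def StCEmono : Prop := ∀ P : Set ℕ → ℝ, LogProb P → ∀ (f : ℕ → ℤˣ) (m H H' M : ℕ), 1 ≤ M →
  H ≤ H' → cE P f m H M ≤ cE P f m H' M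

/-- the information about `n mod p` increases with the window and the modulus -/
def StCEinf : Prop := ∀ P : Set ℕ → ℝ, LogProb P → ∀ (f : ℕ → ℤˣ) (m H H' M M' p : ℕ), 1 ≤ M' →
  1 ≤ p → H ≤ H' → M ∣ M' → Nat.Coprime M' p →
  cE P f m H M - cE P f m H (M * p) ≤ cE P f m H' M' - cE P f m H' (M' * p)

def StCEinfNonneg : Prop := ∀ P : Set ℕ → ℝ, LogProb P → ∀ (f : ℕ → ℤˣ) (m H M p : ℕ), 1 ≤ M →
  1 ≤ p → 0 ≤ cE P f m H M - cE P f m H (M * p)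

/-- superadditivity of the information over coprime moduli -/
def StCEsuper : Prop := ∀ P : Set ℕ → ℝ, LogProb P → ∀ (f : ℕ → ℤˣ) (m H M : ℕ) (Q : Finset ℕ),
  1 ≤ M → (∀ p ∈ Q, p.Prime ∧ Nat.Coprime M p) →
  ∑ p ∈ Q, (cE P f m H M - cE P f m H (M * p)) ≤
    cE P f m H M - cE P f m H (M * ∏ p ∈ Q, p)

/-- the mutual information identity -/
def StCEmut : Prop := ∀ P : Set ℕ → ℝ, LogProb P → ∀ (f : ℕ → ℤˣ) (m H M p : ℕ), 1 ≤ M →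
  1 ≤ p → Nat.Coprime M p →
  ent P (fun n => (W f m H n, n % M)) + ent P (fun n => n % p) -
    ent P (fun n => ((W f m H n, n % M), n % p)) = cE P f m H M - cE P f m H (M * p)

/-- interleaving -/
def StCEinter : Prop := ∀ P : Set ℕ → ℝ, LogProb P → ∀ (f : ℕ → ℤˣ) (m H M : ℕ), 1 ≤ M →
  1 ≤ m → cE P f 1 (m * H) M ≤ m * cE P f m H M

/-! ### Module TL: telescoping -/

def StTele : Prop := ∀ P : Set ℕ → ℝ, LogProb P → ∀ (f : ℕ → ℤˣ) (m H M w r : ℕ), 1 ≤ H →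
  1 ≤ w → M ∣ Nat.factorial w →
  ∑ p ∈ pri w (2 ^ r * w), (1 / (p : ℝ)) * inf P f m H M p ≤
    2 * H * (aa P f H m w - aa P f H m (2 ^ r * w))

def StAaLower : Prop := ∀ P : Set ℕ → ℝ, LogProb P → ∀ (f : ℕ → ℤˣ) (m H y : ℕ), 1 ≤ H →
  1 ≤ y → 1 ≤ m → aa P f H 1 (m * y) ≤ aa P f H m y

/-- comparison with a fixed window -/
def StAaUpper : Prop := ∀ P : Set ℕ → ℝ, LogProb P → ∀ (f : ℕ → ℤˣ) (m H y H₁ M₁ : ℕ), 1 ≤ H →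
  1 ≤ y → 1 ≤ H₁ → M₁ ∣ Nat.factorial y →
  aa P f H m y ≤ (1 + (H₁ : ℝ) / ((H : ℝ) * y)) * (cE P f m H₁ M₁ / H₁)

/-! ### Module LR: the law recursion -/

def StTVle : Prop := ∀ P : Set ℕ → ℝ, LogProb P → ∀ (f : ℕ → ℤˣ) (m H M : ℕ), 1 ≤ M →
  TV P f m H M ≤ 2

def StTVone : Prop := ∀ P : Set ℕ → ℝ, LogProb P → ∀ (f : ℕ → ℤˣ), CM f → ∀ (H M : ℕ),
  TV P f 1 H M = 0

def StLaw : Prop := ∀ P : Set ℕ → ℝ, LogProb P → ∀ (f : ℕ → ℤˣ), CM f → ∀ (m H M p : ℕ),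
  1 ≤ M → 1 ≤ m → p.Prime → Nat.Coprime M p → Nat.Coprime m p →
  TV P f (m * p) H M ≤ TV P f m H M + 2 * Real.sqrt (inf P f m H M p)

/-! ### Module EC: entropies of close laws -/

def StClose : Prop := ∀ P : Set ℕ → ℝ, LogProb P → ∀ (f : ℕ → ℤˣ), ∀ (H M : ℕ),
  1 ≤ M → ∀ ε > 0, ∃ δ > 0, ∀ m, 1 ≤ m → Nat.Coprime m M → TV P f m H M ≤ δ →
  cE P f m H M ≤ cE P f 1 H M + ε

/-! ### Module ME: Mertens bound -/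

def StMertens : Prop := ∀ A : ℕ, ∃ C : ℝ, 1 ≤ C ∧ ∀ w : ℕ, 2 ≤ w →
  ∑ p ∈ pri w (w ^ A), (1 / (p : ℝ)) ≤ C

/-! ### Module OS: one step -/

def StStep : Prop := ∀ P : Set ℕ → ℝ, LogProb P → ∀ (f : ℕ → ℤˣ), ∀ (H M : ℕ), 1 ≤ H →
  1 ≤ M → ∀ η > 0, ∃ H₁ M₁ : ℕ, ∃ δ > 0, ∃ w₀ : ℕ, 1 ≤ H₁ ∧ 1 ≤ M₁ ∧
  ∀ w, w₀ ≤ w → ∀ m, 1 ≤ m → (∀ p, p.Prime → p ∣ m → w < p) → TV P f m H₁ M₁ ≤ δ →
  ∀ r, ∑ p ∈ pri w (2 ^ r * w), (1 / (p : ℝ)) * inf P f m H M p ≤ η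

/-! ### Module CH: chains -/

def StChain : Prop := ∀ P : Set ℕ → ℝ, LogProb P → ∀ (f : ℕ → ℤˣ), CM f → ∀ (A k H M : ℕ),
  1 ≤ H → 1 ≤ M → ∀ δ > 0, ∃ w₀ : ℕ, ∀ w, w₀ ≤ w →
  (AQ (pri w (w ^ A)))^[k] (fun m => TV P f m H M) 1 ≤ δ

/-! ### Module RO: rough numbers -/

def StRough : Prop := ∀ (w A : ℕ), 2 ≤ w → ∀ φ : ℕ → ℝ, (∀ m, 0 ≤ φ m) →
  ∑ d ∈ rough w (w ^ A), (1 / (d : ℝ)) * φ d ≤
    ∑ k ∈ range (A + 1), (AQ (pri w (w ^ A)))^[k] φ 1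

/-! ### The theorem -/

def StMain : Prop := ∀ P : Set ℕ → ℝ, LogProb P → ∀ (f : ℕ → ℤˣ), CM f → ∀ (A H M : ℕ),
  1 ≤ H → 1 ≤ M → ∀ δ > 0, ∃ w₀ : ℕ, ∀ w, w₀ ≤ w →
  ∑ d ∈ rough w (w ^ A), (1 / (d : ℝ)) * TV P f d H M ≤ δ

/-! ### Module MN: existence of the mean -/

def StMean : Prop := ∃ μ : (ℕ → ℝ) → ℝ, LogMean μ ∧ ∀ f, Bdd f → ∀ c : ℝ,
  (∃ N₀ : ℕ, ∀ N ≥ N₀, ∑ n ∈ Icc 1 N, f n / n ≤ c * Real.log N) → μ f ≤ c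

def StProb : Prop := ∀ μ : (ℕ → ℝ) → ℝ, LogMean μ → LogProb (prob μ)

/-! ### Module GD: good differences for bounded correlation sums -/

def StGood : Prop := ∀ (h : ℕ) (C : ℤ), (∀ N : ℕ, |∑ n ∈ Icc 1 N,
    (-1 : ℤ) ^ (ArithmeticFunction.cardFactors n) *
    (-1 : ℤ) ^ (ArithmeticFunction.cardFactors (n + h))| ≤ C) →
  ∀ P : Set ℕ → ℝ, LogProb P → ∀ (J A : ℕ), ∀ ε > 0, ∃ w₀ : ℕ, ∀ w, w₀ ≤ w →
  ∑ d ∈ rough w (w ^ A), (1 / (d : ℝ)) * P {n | ∃ a b, a ≤ b ∧ b ≤ J ∧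
    2 * C < |∑ j ∈ Ico a b, (-1 : ℤ) ^ (ArithmeticFunction.cardFactors (n + j * d)) *
      (-1 : ℤ) ^ (ArithmeticFunction.cardFactors (n + (j + h) * d))|} ≤ ε

end Pool.Agent.Helper18.ED
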